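import Mathlib

/-!
Edge isoperimetry for disjoint involutions, and the coarea argument.
-/

namespace Pool.Agent.P.MP_0b0f5a_al

open Finset Equiv

lemma xlogx {x y : ℝ} (hx : 0 ≤ x) (hxy : x ≤ y) :
    x * Real.log x + y * Real.log y + 2 * x * Real.log 2 ≤ (x + y) * Real.log (x + y) := by
  rcases hx.eq_or_lt with rfl | hx
  · simp
  have hy : 0 < y := hx.trans_le hxy
  have h1 : Real.log x + Real.log 2 ≤ Real.log (x + y) := by
    rw [← Real.log_mul hx.ne' two_ne_zero]; exact Real.log_le_log (by positivity) (by linarith)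
  have h2 : Real.log y + x / y * Real.log 2 ≤ Real.log (x + y) := by
    have h3 := rpow_one_add_le_one_add_mul_self (s := 1) (p := x / y) (by norm_num)
      (by positivity) ((div_le_one hy).2 hxy)
    rw [one_add_one_eq_two, mul_one] at h3
    rw [← Real.log_rpow two_pos, ← Real.log_mul hy.ne' (by positivity)]
    refine Real.log_le_log (by positivity) ?_
    calc y * 2 ^ (x / y) ≤ y * (1 + x / y) := mul_le_mul_of_nonneg_left h3 hy.le
      _ = x + y := by field_simp; ring
  have h4 := mul_le_mul_of_nonneg_left h1 hx.le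
  have h5 := mul_le_mul_of_nonneg_left h2 hy.le
  have h6 : y * (Real.log y + x / y * Real.log 2) = y * Real.log y + x * Real.log 2 := by
    field_simp
  nlinarith

open Classical in
lemma cube {X A : Type} [Encodable X] (s : Finset A) (η : A → Perm X)
    (h1 : ∀ α ∈ s, η α * η α = 1 ∧ η α ≠ 1)
    (h2 : ∀ α ∈ s, ∀ β ∈ s, α ≠ β → Perm.Disjoint (η α) (η β)) (E : Finset (Perm X)) :
    (∑ α ∈ s, ((E.filter fun x => η α * x ∈ E).card : ℝ)) * Real.log 2 ≤
      E.card * Real.log E.card := by
  induction s using Finset.induction_on generalizing E with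
  | empty =>
    simp only [sum_empty, zero_mul]
    exact mul_nonneg (Nat.cast_nonneg _) (Real.log_natCast_nonneg _)
  | insert a s ha ih =>
    obtain ⟨hsq, hne⟩ := h1 a (mem_insert_self _ _)
    obtain ⟨w, hw⟩ : ∃ w, η a w ≠ w := by
      by_contra! h; exact hne (Perm.ext h)
    have hinv : (η a)⁻¹ = η a := inv_eq_of_mul_eq_one_right hsq
    have hww : η a (η a w) = w := by rw [← Perm.mul_apply, hsq, Perm.one_apply]
    set S : Perm X → Prop := fun γ => Encodable.encode (γ⁻¹ w) < Encodable.encode (γ⁻¹ (η a w))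
      with hS
    have hS1 : ∀ γ, S (η a * γ) ↔ ¬ S γ := by
      intro γ
      simp only [hS, mul_inv_rev, hinv, Perm.mul_apply, hww]
      have : Encodable.encode (γ⁻¹ w) ≠ Encodable.encode (γ⁻¹ (η a w)) := fun h =>
        hw (γ⁻¹.injective (Encodable.encode_injective h)).symm
      omega
    have hS2 : ∀ β ∈ s, ∀ γ, S (η β * γ) ↔ S γ := by
      intro β hβ γ
      have hd := (h2 a (mem_insert_self _ _) β (mem_insert_of_mem hβ)
        fun h => ha (h ▸ hβ)).inv_right
      have e1 : (η β)⁻¹ w = w := (hd w).resolve_left hw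
      have e2 : (η β)⁻¹ (η a w) = η a w := (hd _).resolve_left (by rw [hww]; exact hw.symm)
      simp only [hS, mul_inv_rev, Perm.mul_apply, e1, e2]
    set E0 := E.filter S with hE0
    set E1 := E.filter fun γ => ¬ S γ with hE1
    have i0 := ih (fun α hα => h1 α (mem_insert_of_mem hα))
      (fun α hα β hβ => h2 α (mem_insert_of_mem hα) β (mem_insert_of_mem hβ)) E0
    have i1 := ih (fun α hα => h1 α (mem_insert_of_mem hα))
      (fun α hα β hβ => h2 α (mem_insert_of_mem hα) β (mem_insert_of_mem hβ)) E1
    have hc : (E.card : ℝ) = E0.card + E1.card := by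
      exact_mod_cast (card_filter_add_card_filter_not S).symm
    have h3 : ∀ β ∈ s, ((E.filter fun x => η β * x ∈ E).card : ℝ) ≤
        (E0.filter fun x => η β * x ∈ E0).card + (E1.filter fun x => η β * x ∈ E1).card := by
      intro β hβ
      refine mod_cast le_trans (card_le_card fun x hx => ?_) (card_union_le _ _)
      simp only [hE0, hE1, mem_filter, mem_union, hS2 β hβ] at hx ⊢
      tauto
    have h4 : ∀ F F' : Finset (Perm X), (∀ x ∈ F, η a * x ∈ E → η a * x ∈ F') →
        (F.filter fun x => η a * x ∈ E).card ≤ min F.card F'.card := by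
      intro F F' h
      refine le_min (card_filter_le _ _) (card_le_card_of_injOn (η a * ·) (fun x hx => ?_)
        (mul_right_injective _).injOn)
      exact h x (mem_filter.1 hx).1 (mem_filter.1 hx).2
    have h5 := h4 E0 E1 fun x hx h => mem_filter.2 ⟨h, by
      rw [hS1, not_not]; exact (mem_filter.1 hx).2⟩
    have h6 := h4 E1 E0 fun x hx h => mem_filter.2 ⟨h, (hS1 x).2 (mem_filter.1 hx).2⟩
    have h7 : (E.filter fun x => η a * x ∈ E).card ≤ 2 * min E0.card E1.card := by
      have : (E.filter fun x => η a * x ∈ E) ⊆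
          (E0.filter fun x => η a * x ∈ E) ∪ (E1.filter fun x => η a * x ∈ E) := by
        intro x hx
        simp only [hE0, hE1, mem_filter, mem_union] at hx ⊢
        tauto
      have h8 := (card_le_card this).trans (card_union_le _ _)
      rw [min_comm] at h6
      omega
    have h8 := sum_le_sum h3
    rw [sum_add_distrib] at h8
    have hl : 0 ≤ Real.log 2 := Real.log_nonneg one_le_two
    rw [sum_insert ha, hc]
    have h9 := mul_le_mul_of_nonneg_right h8 hl
    rcases le_total E0.card E1.card with h | h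
    · rw [min_eq_left h] at h7
      have h10 : ((E.filter fun x => η a * x ∈ E).card : ℝ) ≤ 2 * E0.card := mod_cast h7
      have h11 := xlogx (Nat.cast_nonneg E0.card) (mod_cast h : (E0.card : ℝ) ≤ E1.card)
      nlinarith
    · rw [min_eq_right h] at h7
      have h10 : ((E.filter fun x => η a * x ∈ E).card : ℝ) ≤ 2 * E1.card := mod_cast h7
      have h11 := xlogx (Nat.cast_nonneg E1.card) (mod_cast h : (E1.card : ℝ) ≤ E0.card)
      rw [add_comm (E1.card : ℝ)] at h11
      nlinarith

/-- At least half of the terms of a sum are at most twice the mean. -/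
lemma markov {Y : Type} [Fintype Y] (f : Y → ℝ) (hf : ∀ y, 0 ≤ f y) {B : ℝ} (hB : 0 < B)
    (h : ∑ y, f y ≤ B) :
    Fintype.card Y ≤ 2 * (univ.filter fun y => Fintype.card Y * f y ≤ 2 * B).card := by
  have h1 := card_filter_add_card_filter_not (s := univ) fun y => Fintype.card Y * f y ≤ 2 * B
  have h2 : ((univ.filter fun y => ¬ Fintype.card Y * f y ≤ 2 * B).card : ℝ) * (2 * B) ≤
      Fintype.card Y * B := by
    calc _ = ∑ y ∈ univ.filter fun y => ¬ Fintype.card Y * f y ≤ 2 * B, 2 * B := by simp
      _ ≤ ∑ y ∈ univ.filter fun y => ¬ Fintype.card Y * f y ≤ 2 * B, Fintype.card Y * f y :=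
        sum_le_sum fun y hy => (not_le.1 (mem_filter.1 hy).2).le
      _ ≤ ∑ y, Fintype.card Y * f y := sum_le_sum_of_subset_of_nonneg (filter_subset _ _)
        fun y _ _ => mul_nonneg (Nat.cast_nonneg _) (hf y)
      _ ≤ _ := by rw [← mul_sum]; exact mul_le_mul_of_nonneg_left h (Nat.cast_nonneg _)
  have h3 : 2 * (univ.filter fun y => ¬ Fintype.card Y * f y ≤ 2 * B).card ≤ Fintype.card Y := by
    have : (2 : ℝ) * (univ.filter fun y => ¬ Fintype.card Y * f y ≤ 2 * B).card ≤
        Fintype.card Y := by nlinarith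
    exact_mod_cast this
  rw [card_univ] at h1
  omega

end Pool.Agent.P.MP_0b0f5a_al
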