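import Mathlib

/-!
The groups `G ω` acting on finite binary words (`false` is the letter 0, `true` the letter 1),
their Følner functions, and the equivalence of growth functions.
-/

namespace Pool.Agent.P.MP_0b0f5a_al

/-- The map `a`: it changes the first letter. -/
def aFun : List Bool → List Bool
  | [] => []
  | x :: w => (!x) :: w

/-- The map `b`, `c` or `d` attached to `ω`; `k` is the symbol that `β`, `ζ` or `δ` sends to `1`
(`k = 2` for `b`, `k = 1` for `c`, `k = 0` for `d`). -/
def sFun (k : Fin 3) : (ℕ → Fin 3) → List Bool → List Bool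
  | _, [] => []
  | ω, false :: w => false :: (if ω 0 = k then w else aFun w)
  | ω, true :: w => true :: sFun k (fun i => ω (i + 1)) w

theorem aFun_invol : Function.Involutive aFun := by
  rintro (_ | ⟨x, w⟩) <;> simp [aFun]

theorem sFun_invol (k : Fin 3) (ω : ℕ → Fin 3) : Function.Involutive (sFun k ω) := by
  intro w
  induction w generalizing ω with
  | nil => rfl
  | cons x w ih =>
    cases x
    · by_cases h : ω 0 = k <;> simp [sFun, h, aFun_invol w]
    · simp [sFun, ih]

/-- The generator `a`. -/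
def genA : Equiv.Perm (List Bool) := aFun_invol.toPerm

/-- The generators `b = genS 2 ω`, `c = genS 1 ω`, `d = genS 0 ω`. -/
def genS (k : Fin 3) (ω : ℕ → Fin 3) : Equiv.Perm (List Bool) := (sFun_invol k ω).toPerm

/-- The canonical generating set `{a, b, c, d}`. -/
def gens (ω : ℕ → Fin 3) : Set (Equiv.Perm (List Bool)) := {genA, genS 2 ω, genS 1 ω, genS 0 ω}

/-- The group `G ω`. -/
def grig (ω : ℕ → Fin 3) : Subgroup (Equiv.Perm (List Bool)) := Subgroup.closure (gens ω)

/-- The Følner function: the least size of a finite `E ⊆ G ω` with `|sE Δ E| / |E| < 1 / n` for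
every generator `s`. -/
noncomputable def folner (ω : ℕ → Fin 3) (n : ℕ) : ℕ :=
  sInf {m | ∃ E : Set (Equiv.Perm (List Bool)), E.Finite ∧ E ⊆ grig ω ∧ E.ncard = m ∧
    ∀ s ∈ gens ω, n * (symmDiff ((fun g => s * g) '' E) E).ncard < E.ncard}

/-- The equivalence of growth functions. -/
def Equivalent (f₁ f₂ : ℕ → ℕ) : Prop :=
  ∃ c : ℕ, ∀ n, 1 ≤ n → f₁ n ≤ c * f₂ (c * n) ∧ f₂ n ≤ c * f₁ (c * n)

end Pool.Agent.P.MP_0b0f5a_al
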