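import Pool.Agent.P.MP_0b0f5a_al.Defs

/-!
The quantities that describe the Følner function of `G ω`.
-/

namespace Pool.Agent.P.MP_0b0f5a_al

/-- The number of consecutive positions just before `k` that carry the symbol `ω k`. -/
def runLen (ω : ℕ → Fin 3) : ℕ → ℕ
  | 0 => 0
  | k + 1 => if ω (k + 1) = ω k then runLen ω k + 1 else 0

/-- The sum of `2 ^ (k + runLen ω k)` over `k < D`. -/
def resist (ω : ℕ → Fin 3) (D : ℕ) : ℕ := ∑ k ∈ Finset.range D, 2 ^ (k + runLen ω k)

/-- The least `D` with `n ^ 2 ≤ resist ω D`. -/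
noncomputable def depth (ω : ℕ → Fin 3) (n : ℕ) : ℕ := sInf {D | n ^ 2 ≤ resist ω D}

end Pool.Agent.P.MP_0b0f5a_al
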