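import Pool.Agent.P.MP_0b0f5a_al.Upper2

/-!
Choice of the parameters.
-/

namespace Pool.Agent.P.MP_0b0f5a_al

open Equiv Finset

variable {ω : ℕ → Fin 3}

lemma ncard_symmDiff (E : Finset Γ) (s : Γ) :
    (symmDiff ((fun g => s * g) '' (E : Set Γ)) E).ncard = 2 * bd E s := by
  classical
  have h6 : (E.image (s * ·)).card = E.card := card_image_of_injective _ (mul_right_injective s)
  have h7 : (E.image (s * ·) \ E).card = bd E s := by
    rw [bd, ← card_image_of_injective (E.filter fun x => s * x ∉ E) (mul_right_injective s)]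
    congr 1
    ext x
    simp only [mem_sdiff, mem_image, mem_filter]
    constructor
    · rintro ⟨⟨y, hy, rfl⟩, h⟩; exact ⟨y, ⟨hy, h⟩, rfl⟩
    · rintro ⟨y, ⟨hy, h⟩, rfl⟩; exact ⟨⟨y, hy, rfl⟩, h⟩
  rw [← coe_image, ← coe_symmDiff, Set.ncard_coe_finset, symmDiff_def, sup_eq_union,
    card_union_of_disjoint disjoint_sdiff_sdiff, ← card_sdiff_comm h6, h7, two_mul]

lemma folner_le {n : ℕ} {E : Finset Γ} (h1 : (E : Set Γ) ⊆ grig ω)
    (h2 : ∀ s ∈ gens ω, n * (2 * bd E s) < E.card) : folner ω n ≤ E.card :=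
  Nat.sInf_le ⟨E, E.finite_toSet, h1, Set.ncard_coe_finset E, fun s hs => by
    rw [ncard_symmDiff, Set.ncard_coe_finset]; exact h2 s hs⟩

lemma folner_spec {n : ℕ} {E : Finset Γ} (h1 : (E : Set Γ) ⊆ grig ω)
    (h2 : ∀ s ∈ gens ω, n * (2 * bd E s) < E.card) :
    ∃ E : Finset Γ, E.card = folner ω n ∧ ∀ s ∈ gens ω, n * (2 * bd E s) < E.card := by
  obtain ⟨F, f1, -, f3, f4⟩ : folner ω n ∈ _ := Nat.sInf_mem ⟨E.card, E, E.finite_toSet, h1,
    Set.ncard_coe_finset E, fun s hs => by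
      rw [ncard_symmDiff, Set.ncard_coe_finset]; exact h2 s hs⟩
  lift F to Finset Γ using f1
  rw [Set.ncard_coe_finset] at f3
  exact ⟨F, f3, fun s hs => by simpa only [ncard_symmDiff, Set.ncard_coe_finset] using f4 s hs⟩

lemma genS_perm (p : Perm (Fin 3)) (k : Fin 3) (ω : ℕ → Fin 3) :
    genS (p k) (fun i => p (ω i)) = genS k ω := by
  ext1 w
  induction w generalizing ω with
  | nil => rfl
  | cons x w ih =>
    rw [genS_eq, genS_eq k]
    cases x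
    · simp
    · simp only [pair_true]; rw [ih fun i => ω (i + 1)]

lemma gens_perm (p : Perm (Fin 3)) (ω : ℕ → Fin 3) : gens (fun i => p (ω i)) = gens ω := by
  have h1 : ∀ ω : ℕ → Fin 3, gens ω = insert genA (Set.range fun k => genS k ω) := by
    intro ω
    ext x
    simp only [gens, Set.mem_insert_iff, Set.mem_singleton_iff, Set.mem_range, Fin.exists_fin_succ,
      IsEmpty.exists_iff, eq_comm (b := x)]
    tauto
  rw [h1, h1, ← p.surjective.range_comp]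
  simp only [Function.comp_def, genS_perm]

lemma folner_perm (p : Perm (Fin 3)) (ω : ℕ → Fin 3) : folner (fun i => p (ω i)) = folner ω := by
  funext n
  simp only [folner, grig, gens_perm]

lemma genD_run (k : Fin 3) (r : ℕ) : ∀ a : ℕ, (∀ i < r, ω (a + i) = k) →
    genS k (fun i => ω (i + a)) = En r (genS k fun i => ω (i + (a + r))) := by
  induction r with
  | zero => intro a _; rfl
  | succ r ih =>
    intro a h
    have h1 := ih (a + 1) fun i hi => by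
      rw [add_assoc, add_comm 1]; exact h _ (by omega)
    rw [genS_eq, if_pos (by simpa using h 0 (by omega)), En_succ]
    simp only [add_assoc, add_comm 1] at h1 ⊢
    rw [h1]

/-- The sequences without the symbol 2 that are constant from `K j` to `K (j + 1) - 2` and
change at `K (j + 1) - 1`. -/
structure Sparse (K : ℕ → ℕ) (ω : ℕ → Fin 3) : Prop where
  ne_two : ∀ i, ω i ≠ 2
  pos : 1 ≤ K 0
  grow : ∀ j, 4 * K j ≤ K (j + 1)
  run : ∀ j i, K j ≤ i → i + 1 < K (j + 1) → ω i = ω (K j)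
  change : ∀ j, ω (K (j + 1) - 1) ≠ ω (K j)

variable {K : ℕ → ℕ}

lemma Sparse.le (h : Sparse K ω) (j : ℕ) : j + 1 ≤ K j := by
  induction j with
  | zero => exact h.pos
  | succ j ih => have := h.grow j; omega

lemma Sparse.genD (h : Sparse K ω) (j r : ℕ) (hr : K (j + 1) = K j + r + 1) :
    genS (ω (K j)) (fun i => ω (i + K j)) =
      En r (sig (genA, genS (ω (K j)) fun i => ω (i + K (j + 1)))) := by
  have h1 := h.change j
  rw [hr, Nat.add_sub_cancel] at h1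
  rw [genD_run _ r (K j) fun i hi => h.run j _ (by omega) (by omega), genS_eq, sig_apply, genA_sq,
    one_mul, zero_add, if_neg h1, hr]
  simp only [add_assoc, add_comm 1]

lemma genS_other (hω : ∀ i, ω i ≠ 2) {k l : Fin 3} (hk : k ≠ 2) (hl : l ≠ 2) (h : k ≠ l) :
    genS k ω = genB * genS l ω ∧ Commute genB (genS l ω) := by
  have h1 := genS_one ω
  have h2 := genS_comm ω
  rw [genS_two hω] at h1 h2
  obtain ⟨rfl, rfl⟩ | ⟨rfl, rfl⟩ : k = 1 ∧ l = 0 ∨ k = 0 ∧ l = 1 := by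
    revert k l; decide
  · exact ⟨h1, h2⟩
  · rw [h1, ← mul_assoc, genB_sq, one_mul]
    exact ⟨rfl, (Commute.refl _).mul_right h2⟩

lemma sig_sq' (k : Fin 3) (ω : ℕ → Fin 3) : sig (genA, genS k ω) * sig (genA, genS k ω) = 1 :=
  sig_sq (genS_sq _ _)

lemma Sparse.pat (h : Sparse K ω) (j r : ℕ) (hr : K (j + 1) = K j + r + 1) (h2 : 2 ≤ r)
    {k : Fin 3} (hk : k ≠ 2) :
    Pat r (sig (genA, genS (ω (K j)) fun i => ω (i + K (j + 1))))
      (genS k fun i => ω (i + K j)) := by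
  by_cases h1 : k = ω (K j)
  · rw [h1, h.genD j r hr]; exact pat_zero h2 (sig_sq' _ _)
  · obtain ⟨h3, h4⟩ := genS_other (fun i => h.ne_two (i + K j)) hk (h.ne_two _) h1
    rw [h.genD j r hr] at h3 h4
    rw [h3]; exact pat_one h2 (sig_sq' _ _) h4

lemma upper_core' (hω : ∀ i, ω i ≠ 2) {M N m n : ℕ} (hK : 1 ≤ M) {δ : Γ} {k : Fin 3} (hk : k ≠ 2)
    (hD : genS k (fun i => ω (i + M)) = En N δ) (hm : 2 * m < 2 ^ N) (hn0 : 0 < n)
    (hn : 40 * n < 2 ^ (M / 2) * m) :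
    ∃ E : Finset Γ, (E : Set Γ) ⊆ grig ω ∧ (∀ s ∈ gens ω, n * (2 * bd E s) < E.card) ∧
      E.card ≤ 2 ^ (2 ^ M * (M + 4 * m + 2)) := by
  have h1 : ∀ a b : Fin 3, a ≠ 2 → b ≠ 2 → swap a 0 b ≠ 2 := by decide
  have := upper_core (ω := fun i => swap k 0 (ω i)) (fun i => h1 _ _ hk (hω i)) hK (δ := δ) (by
    rw [← hD, ← genS_perm (swap k 0) k, swap_apply_left]) hm hn0 hn
  rwa [grig, gens_perm] at this

lemma sig_ne_one (D : Γ) : sig (genA, D) ≠ 1 := fun h =>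
  genA_ne_one (congrArg Prod.fst (sig_inj (h.trans (map_one sig).symm)))

lemma budget {h L w T : ℕ} (h1 : 2 * h ≤ w) (h2 : 2 * h ≤ h + L + 3 - (h + L + 3) / 2)
    (hT : 1 ≤ T) :
    972 ^ 2 * (2 * (8 * T * 2 ^ (h + L - (h + L) / 2) * (2 * (2 ^ h * (3 ^ h * (28 * 2 ^ L) +
      4 * 2 ^ h)) + 8 * 2 ^ w * (2 ^ (h + (L + 2)) * 2))) + 2 ^ w * (4 * (2 ^ h * (3 ^ h *
        (28 * 2 ^ L) + 4 * 2 ^ h)) + 40 * (2 ^ (h + (L + 2)) * 2))) ≤
      2 ^ 28 * T * 2 ^ (2 * (h + L + 3) + w - (h + L + 3) / 2) := by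
  set k := h + L + 3 with hk
  have e1 : 2 ^ (h + (L + 2)) * 2 = 2 ^ k := by rw [← pow_succ]; rfl
  have e2 : 2 ^ h * (3 ^ h * (28 * 2 ^ L) + 4 * 2 ^ h) ≤ 4 * (2 ^ (2 * h) * 2 ^ k) := by
    have a1 : 3 ^ h ≤ 2 ^ h * 2 ^ h := by rw [← mul_pow]; gcongr; norm_num
    have a2 : 1 ≤ 2 ^ h * 2 ^ L := Nat.one_le_iff_ne_zero.2 (by positivity)
    calc _ ≤ 2 ^ h * (2 ^ h * 2 ^ h * (28 * 2 ^ L) + 4 * (2 ^ h * (2 ^ h * 2 ^ L))) := by
          gcongr
          exact Nat.le_mul_of_pos_right _ a2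
      _ = _ := by rw [hk]; ring
  have e3 : 2 ^ (2 * k + w - k / 2) = 2 ^ (k - k / 2) * (2 ^ w * 2 ^ k) := by
    rw [← pow_add, ← pow_add]; congr 1; omega
  have e4 : 2 ^ (h + L - (h + L) / 2) * 2 ≤ 2 ^ (k - k / 2) := by
    rw [← pow_succ]; exact Nat.pow_le_pow_right two_pos (by omega)
  have e5 : 2 ^ (2 * h) ≤ 2 ^ w := Nat.pow_le_pow_right two_pos h1
  have e6 : 2 ^ (2 * h) ≤ 2 ^ (k - k / 2) := Nat.pow_le_pow_right two_pos h2
  have e7 : 1 ≤ 2 ^ (k - k / 2) := Nat.one_le_two_pow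
  rw [e1, e3]
  generalize 2 ^ h * (3 ^ h * (28 * 2 ^ L) + 4 * 2 ^ h) = X at *
  generalize 2 ^ (h + L - (h + L) / 2) = g at *
  generalize 2 ^ (k - k / 2) = u at *
  generalize 2 ^ (2 * h) = v at *
  generalize 2 ^ w = W at *
  generalize 2 ^ k = c at *
  have f1 : X ≤ 4 * (W * c) := e2.trans (by gcongr)
  have f2 : X ≤ 4 * (u * c) := e2.trans (by gcongr)
  have f3 : 8 * T * g * (2 * X + 8 * W * c) ≤ 64 * (T * (u * (W * c))) :=
    calc _ ≤ 8 * T * g * (2 * (4 * (W * c)) + 8 * W * c) := by gcongr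
      _ = 64 * (T * (g * 2 * (W * c))) := by ring
      _ ≤ _ := by gcongr
  have f4 : W * (4 * X + 40 * c) ≤ 56 * (T * (u * (W * c))) :=
    calc _ ≤ W * (4 * (4 * (u * c)) + 40 * (u * c)) := by
          gcongr; exact Nat.le_mul_of_pos_left _ e7
      _ = 56 * (1 * (u * (W * c))) := by ring
      _ ≤ _ := by gcongr
  rw [mul_assoc (2 ^ 28)]
  omega

lemma Sparse.lower (h : Sparse K ω) (j : ℕ) {T n x : ℕ} (hT : 1 ≤ T)
    (h1 : 4 * (T * 2 ^ ((K (j + 2) - K (j + 1) - 3) / 2)) ≤ 2 ^ (K (j + 3) - K (j + 2) - 1))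
    (h2 : 2 ^ 28 * T * 2 ^ (K (j + 2) - K (j + 1) / 2) ≤ n)
    (h3 : 8 * x ≤ 2 ^ (K (j + 2) - 6) * (T * 2 ^ ((K (j + 2) - K (j + 1) - 3) / 2)))
    (E : Finset Γ) (hF : ∀ s ∈ gens ω, n * (2 * bd E s) < E.card) : 2 ^ x ≤ E.card := by
  have g0 := h.le j
  have g1 := h.grow j
  have g2 : 4 * K (j + 1) ≤ K (j + 2) := h.grow (j + 1)
  have g3 : 4 * K (j + 2) ≤ K (j + 3) := h.grow (j + 2)
  obtain ⟨L, hL⟩ : ∃ L, K (j + 1) = K j + L + 3 := ⟨K (j + 1) - K j - 3, by omega⟩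
  obtain ⟨w, hw⟩ : ∃ w, K (j + 2) = 2 * (K j + L + 3) + w :=
    ⟨K (j + 2) - 2 * K (j + 1), by omega⟩
  have hE : 0 < E.card := lt_of_le_of_lt (Nat.zero_le _) (hF genA (by simp [gens]))
  have hD := h.genD j (L + 2) (by omega)
  have hX1 := h.pat (j + 1) (K j + L + w + 2) (by change K (j + 2) = _; omega) (by omega)
    (h.ne_two (K j))
  have hX2 := h.pat (j + 2) (K (j + 3) - K (j + 2) - 1) (by change K (j + 3) = _; omega)
    (by omega) (h.ne_two (K (j + 1)))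
  have hn : 0 < n := lt_of_lt_of_le (by positivity) h2
  have e1 : (K (j + 2) - K (j + 1) - 3) / 2 = (K j + L + w) / 2 := by omega
  rw [e1] at h1 h3
  have key := lower_core h.ne_two (sig_sq' _ _) (sig_ne_one _) hD hX1 hX2
    (G := 8 * T * 2 ^ (K j + L - (K j + L) / 2)) (R := 2 ^ ((K j + L) / 2))
    (Nat.one_le_iff_ne_zero.2 (by positivity)) hT
    (le_of_eq (by rw [mul_left_comm, ← pow_add]; congr 2; omega))
    (by rw [← pow_mul]; exact Nat.pow_le_pow_right two_pos (by omega))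
    (by rw [← pow_mul, ← pow_add]; exact Nat.pow_le_pow_right two_pos (by omega)) h1 le_rfl
    ((budget (by omega) (by omega) hT).trans (by rw [← hw, ← hL]; exact h2)) hn E
    (card_pos.1 hE) fun s hs => (hF s hs).le
  rw [← pow_add, ← pow_add, show K j + L + (K j + L + w) = K (j + 2) - 6 by omega] at key
  have h4 : ((8 * x : ℕ) : ℝ) * Real.log 2 ≤ 8 * Real.log E.card :=
    le_trans (mul_le_mul_of_nonneg_right (by exact_mod_cast h3) (Real.log_nonneg one_le_two)) key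
  have h5 : Real.log (2 ^ x) ≤ Real.log E.card := by
    rw [Real.log_pow]; push_cast at h4; linarith
  exact_mod_cast (Real.log_le_log_iff (by positivity) (by exact_mod_cast hE)).1 h5

lemma lin_le_pow {x : ℕ} (h : 8 ≤ x) : 8 * x + 18 ≤ 2 ^ x := by
  induction x, h using Nat.le_induction with
  | base => norm_num
  | succ x hx ih => rw [pow_succ]; omega

lemma Sparse.upper (h : Sparse K ω) (j : ℕ) {c n : ℕ} (hc : 2 ^ 10 ≤ c) (hn : 1 ≤ n)
    (h1 : 2 ^ (K (j + 3) - K (j + 2) / 2) ≤ c * n) (h2 : c * n < 2 ^ (K (j + 4) - K (j + 3) / 2)) :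
    ∃ E : Finset Γ, (E : Set Γ) ⊆ grig ω ∧ (∀ s ∈ gens ω, n * (2 * bd E s) < E.card) ∧
      E.card ≤ 2 ^ (c * n * 2 ^ (K (j + 3) / 2)) := by
  have g0 := h.le j
  have g1 := h.grow j
  have g2 : 4 * K (j + 1) ≤ K (j + 2) := h.grow (j + 1)
  have g3 : 4 * K (j + 2) ≤ K (j + 3) := h.grow (j + 2)
  have g4 : 4 * K (j + 3) ≤ K (j + 4) := h.grow (j + 3)
  have hD := h.genD (j + 3) (K (j + 4) - K (j + 3) - 1) (by change K (j + 4) = _; omega)
  set k := K (j + 2)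
  set M := K (j + 3)
  set M' := K (j + 4)
  have p1 : 0 < 2 ^ (M / 2) := by positivity
  have p2 := Nat.div_mul_le_self (40 * n) (2 ^ (M / 2))
  have p3 : 40 * n < 2 ^ (M / 2) * (40 * n / 2 ^ (M / 2) + 1) := Nat.lt_mul_div_succ _ p1
  set q := 40 * n / 2 ^ (M / 2)
  obtain ⟨E, e1, e2, e3⟩ := upper_core' h.ne_two (by omega) (h.ne_two _) hD (m := q + 1) (by
    have a1 : 2 ^ (M' - M / 2) ≤ 8 * (2 ^ (M' - M - 2) * 2 ^ (M / 2)) := by
      rw [← pow_add, show 8 = 2 ^ 3 by rfl, ← pow_add]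
      exact Nat.pow_le_pow_right two_pos (by omega)
    have a2 : 2 ^ 10 * n ≤ c * n := Nat.mul_le_mul_right _ hc
    have a3 : 2 * q * 2 ^ (M / 2) < 2 ^ (M' - M - 2) * 2 ^ (M / 2) := by
      rw [mul_assoc]; omega
    have a4 := Nat.lt_of_mul_lt_mul_right a3
    have a5 : 2 ^ 2 ≤ 2 ^ (M' - M - 2) := Nat.pow_le_pow_right two_pos (by omega)
    rw [show M' - M - 1 = M' - M - 2 + 1 by omega, pow_succ]
    omega) hn p3
  refine ⟨E, e1, e2, e3.trans (Nat.pow_le_pow_right two_pos ?_)⟩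
  have a1 : 2 ^ M ≤ 2 * (2 ^ (M / 2) * 2 ^ (M / 2)) := by
    rw [← pow_add, ← pow_succ']; exact Nat.pow_le_pow_right two_pos (by omega)
  have a2 : 2 ^ M * (4 * q) ≤ 320 * (n * 2 ^ (M / 2)) :=
    calc _ ≤ 2 * (2 ^ (M / 2) * 2 ^ (M / 2)) * (4 * q) := by gcongr
      _ = 8 * (q * 2 ^ (M / 2) * 2 ^ (M / 2)) := by ring
      _ ≤ 8 * (40 * n * 2 ^ (M / 2)) := by gcongr
      _ = _ := by ring
  have a3 : 2 * (2 ^ M * (M + 6)) ≤ c * n * 2 ^ (M / 2) :=
    calc _ = 2 ^ M * (2 * (M + 6)) := by ring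
      _ ≤ 2 ^ M * 2 ^ (M / 4) := by
          have := lin_le_pow (x := M / 4) (by omega)
          gcongr; omega
      _ ≤ 2 ^ (M - k / 2) * 2 ^ (M / 2) := by
          rw [← pow_add, ← pow_add]; exact Nat.pow_le_pow_right two_pos (by omega)
      _ ≤ _ := by gcongr
  have a4 : 2 ^ 10 * (n * 2 ^ (M / 2)) ≤ c * n * 2 ^ (M / 2) := by rw [mul_assoc]; gcongr
  have a5 : 2 ^ M * (M + 4 * (q + 1) + 2) = 2 ^ M * (4 * q) + 2 ^ M * (M + 6) := by ring
  omega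

lemma Sparse.lower' (h : Sparse K ω) (j : ℕ) {c n : ℕ} (hc : 2 ^ 43 ≤ c)
    (h1 : 2 ^ (K (j + 2) - K (j + 1) / 2) ≤ n) (h2 : n < 2 ^ (K (j + 3) - K (j + 2) / 2))
    (E : Finset Γ) (hF : ∀ s ∈ gens ω, c * n * (2 * bd E s) < E.card) :
    2 ^ (n * 2 ^ (K (j + 2) / 2)) ≤ E.card := by
  have g0 := h.le j
  have g1 := h.grow j
  have g2 : 4 * K (j + 1) ≤ K (j + 2) := h.grow (j + 1)
  have g3 : 4 * K (j + 2) ≤ K (j + 3) := h.grow (j + 2)
  have g4 : 4 * K (j + 3) ≤ K (j + 4) := h.grow (j + 3)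
  have p0 : 2 ^ 43 * n ≤ c * n := Nat.mul_le_mul_right _ hc
  have p1 : 0 < 2 ^ (K (j + 2) - K (j + 1) / 2) := by positivity
  have p2 := Nat.div_mul_le_self n (2 ^ (K (j + 2) - K (j + 1) / 2))
  have p3 := Nat.lt_mul_div_succ n p1
  have p4 := Nat.div_pos h1 p1
  generalize n / 2 ^ (K (j + 2) - K (j + 1) / 2) = q at p2 p3 p4
  by_cases hc : 4 * (2 ^ 12 * q * 2 ^ ((K (j + 2) - K (j + 1) - 3) / 2)) ≤
      2 ^ (K (j + 3) - K (j + 2) - 1)
  · refine h.lower j (by omega) hc (by rw [mul_assoc, mul_assoc]; omega) ?_ E hF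
    calc _ ≤ 8 * (2 ^ (K (j + 2) - K (j + 1) / 2) * (2 * q) * 2 ^ (K (j + 2) / 2)) := by
          gcongr; exact p3.le.trans (by gcongr; omega)
      _ = q * 2 ^ (4 + (K (j + 2) - K (j + 1) / 2) + K (j + 2) / 2) := by ring
      _ ≤ q * 2 ^ (K (j + 2) - 6 + 12 + (K (j + 2) - K (j + 1) - 3) / 2) :=
          Nat.mul_le_mul_left _ (Nat.pow_le_pow_right two_pos (by omega))
      _ = _ := by ring
  · refine h.lower (j + 1) le_rfl ?_ ?_ ?_ E hF
    · change 2 ^ 2 * (1 * 2 ^ ((K (j + 3) - K (j + 2) - 3) / 2)) ≤ 2 ^ (K (j + 4) - K (j + 3) - 1)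
      rw [one_mul, ← pow_add]
      exact Nat.pow_le_pow_right two_pos (by omega)
    · refine le_trans ?_ p0
      change 2 ^ 28 * 1 * 2 ^ (K (j + 3) - K (j + 2) / 2) ≤ _
      have a1 : 2 ^ (K (j + 3) - K (j + 2) / 2) * 2 ^ ((K (j + 2) - K (j + 1) - 3) / 2) ≤
          2 ^ 15 * n * 2 ^ ((K (j + 2) - K (j + 1) - 3) / 2) :=
        calc _ ≤ 2 * 2 ^ (K (j + 3) - K (j + 2) - 1) * 2 ^ (K (j + 2) - K (j + 1) / 2) := by
              rw [← pow_add, ← pow_succ', ← pow_add]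
              exact Nat.pow_le_pow_right two_pos (by omega)
          _ ≤ 2 * (4 * (2 ^ 12 * q * 2 ^ ((K (j + 2) - K (j + 1) - 3) / 2))) *
                2 ^ (K (j + 2) - K (j + 1) / 2) := by gcongr; omega
          _ = 2 ^ 15 * (q * 2 ^ (K (j + 2) - K (j + 1) / 2)) *
                2 ^ ((K (j + 2) - K (j + 1) - 3) / 2) := by ring
          _ ≤ _ := by gcongr
      have a2 := Nat.le_of_mul_le_mul_right a1 (by positivity)
      omega
    · change _ ≤ 2 ^ (K (j + 3) - 6) * (1 * 2 ^ ((K (j + 3) - K (j + 2) - 3) / 2))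
      calc _ ≤ 8 * (2 ^ (K (j + 3) - K (j + 2) / 2) * 2 ^ (K (j + 2) / 2)) := by gcongr
        _ = 2 ^ (3 + (K (j + 3) - K (j + 2) / 2) + K (j + 2) / 2) := by ring
        _ ≤ _ := by
            rw [one_mul, ← pow_add]; exact Nat.pow_le_pow_right two_pos (by omega)

lemma Sparse.main (h : Sparse K ω) : ∃ F : ℕ → ℕ,
    (∀ j n, 2 ^ (K (j + 1) - K j / 2) ≤ n → n < 2 ^ (K (j + 2) - K (j + 1) / 2) →
      F n = 2 ^ (n * 2 ^ (K (j + 1) / 2))) ∧ Equivalent (folner ω) F := by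
  set t : ℕ → ℕ := fun j => 2 ^ (K (j + 1) - K j / 2) with ht
  have hm : StrictMono t := strictMono_nat_of_lt_succ fun j => by
    have g1 := h.le (j + 1)
    have g2 : 4 * K (j + 1) ≤ K (j + 2) := h.grow (j + 1)
    change 2 ^ (K (j + 1) - K j / 2) < 2 ^ (K (j + 2) - K (j + 1) / 2)
    exact Nat.pow_lt_pow_right one_lt_two (by omega)
  have hex : ∀ n, ∃ i, n < t i := fun n => ⟨n + 1, hm.le_apply⟩
  have hfind : ∀ j n, t j ≤ n → n < t (j + 1) → Nat.find (hex n) = j + 1 := fun j n h1 h2 =>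
    (Nat.find_eq_iff _).2 ⟨h2, fun i hi => not_lt.2 ((hm.monotone (by omega)).trans h1)⟩
  have hr : ∀ i n, t i ≤ n → ∃ j, t (j + i) ≤ n ∧ n < t (j + i + 1) := by
    intro i n hn
    have h1 := Nat.find_spec (hex n)
    have h2 : i < Nat.find (hex n) := hm.lt_iff_lt.1 (hn.trans_lt h1)
    refine ⟨Nat.find (hex n) - 1 - i, not_lt.1 (Nat.find_min (hex n) (by omega)), ?_⟩
    rwa [show Nat.find (hex n) - 1 - i + i + 1 = Nat.find (hex n) by omega]
  set F : ℕ → ℕ := fun n => 2 ^ (n * 2 ^ (K (Nat.find (hex n)) / 2)) with hF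
  have hF1 : ∀ j n, t j ≤ n → n < t (j + 1) → F n = 2 ^ (n * 2 ^ (K (j + 1) / 2)) :=
    fun j n h1 h2 => by simp only [hF, hfind j n h1 h2]
  refine ⟨F, hF1, 2 ^ 43 + t 2 + (range (t 1)).sup F, fun n hn => ?_⟩
  set c := 2 ^ 43 + t 2 + (range (t 1)).sup F with hc
  have up : ∀ n, 1 ≤ n → ∃ E : Finset Γ, (E : Set Γ) ⊆ grig ω ∧
      (∀ s ∈ gens ω, n * (2 * bd E s) < E.card) ∧ E.card ≤ F (c * n) := by
    intro n hn
    obtain ⟨j, h1, h2⟩ := hr 2 (c * n) (le_trans (by omega) (Nat.le_mul_of_pos_right c hn))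
    rw [hF1 _ _ h1 h2]
    exact h.upper j (by omega) hn h1 h2
  constructor
  · obtain ⟨E, e1, e2, e3⟩ := up n hn
    exact ((folner_le e1 e2).trans e3).trans (Nat.le_mul_of_pos_left _ (by omega))
  · obtain ⟨E, e1, e2, -⟩ := up (c * n) (Nat.mul_pos (by omega) hn)
    obtain ⟨E', e3, e4⟩ := folner_spec e1 e2
    rw [← e3]
    by_cases h1 : t 1 ≤ n
    · obtain ⟨j, h2, h3⟩ := hr 1 n h1
      rw [hF1 _ _ h2 h3]
      exact (h.lower' j (by omega) h2 h3 E' e4).trans (Nat.le_mul_of_pos_left _ (by omega))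
    · have h2 : F n ≤ (range (t 1)).sup F := le_sup (mem_range.2 (not_le.1 h1))
      have h3 : 0 < E'.card := lt_of_le_of_lt (Nat.zero_le _) (e4 genA (by simp [gens]))
      exact le_trans (by omega) (Nat.le_mul_of_pos_right c h3)

end Pool.Agent.P.MP_0b0f5a_al
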