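import Mathlib

/-!
Almost fixed vectors: tensorisation over commuting coordinates and commuting finite groups.
-/

namespace Pool.Agent.P.MP_0b0f5a_al

open Finset

variable {V : Type} [NormedAddCommGroup V] [InnerProductSpace ℝ V] {G : Type} [Group G]

/-- The displacement of `v` under `g`. -/
noncomputable def mv (π : G →* (V ≃ₗᵢ[ℝ] V)) (v : V) (g : G) : ℝ := ‖π g v - v‖

variable {π : G →* (V ≃ₗᵢ[ℝ] V)}

lemma pi_mul (g h : G) (v : V) : π (g * h) v = π g (π h v) := by rw [map_mul]; rfl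

lemma mv_nonneg (v g) : 0 ≤ mv π v g := norm_nonneg _

@[simp] lemma mv_one (v) : mv π v 1 = 0 := by simp [mv]

lemma mv_mul (v g h) : mv π v (g * h) ≤ mv π v g + mv π v h := by
  have : π (g * h) v - v = (π g v - v) + π g (π h v - v) := by rw [pi_mul, map_sub]; abel
  rw [mv, this]
  exact (norm_add_le _ _).trans (by rw [LinearIsometryEquiv.norm_map]; rfl)

lemma mv_inv (v g) : mv π v g⁻¹ = mv π v g := by
  rw [mv, ← (π g).norm_map, map_sub, ← pi_mul, mul_inv_cancel, map_one, norm_sub_rev]; rfl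

lemma mv_pow (v g) (n : ℕ) : mv π v (g ^ n) ≤ n * mv π v g := by
  induction n with
  | zero => simp
  | succ n ih => rw [pow_succ]; refine (mv_mul _ _ _).trans ?_; push_cast; linarith

lemma mv_conj (v g h) : mv π v (h * g * h⁻¹) ≤ mv π v g + 2 * mv π v h := by
  have h1 := mv_mul (π := π) v (h * g) h⁻¹
  have h2 := mv_mul (π := π) v h g
  rw [mv_inv] at h1; linarith

lemma mv_le_of_near (v w g) : mv π v g ≤ mv π w g + 2 * ‖w - v‖ := by
  have : π g v - v = (π g w - w) + (-(π g (w - v)) + (w - v)) := by rw [map_sub]; abel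
  rw [mv, this]
  refine (norm_add_le _ _).trans (add_le_add le_rfl ((norm_add_le _ _).trans ?_))
  rw [norm_neg, LinearIsometryEquiv.norm_map]; linarith

lemma mv_act (v g h) : mv π (π h v) (h * g * h⁻¹) = mv π v g := by
  rw [mv, ← pi_mul, inv_mul_cancel_right, pi_mul, ← map_sub, LinearIsometryEquiv.norm_map, mv]

lemma resample {Y S M : Type} [Fintype Y] [DecidableEq Y] [Fintype S] [AddCommMonoid M] (y : Y)
    (f : (Y → S) → M) :
    ∑ σ : Y → S, ∑ s : S, f (Function.update σ y s) = Fintype.card S • ∑ σ : Y → S, f σ := by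
  have h : ∑ p : (Y → S) × S, f (Function.update p.1 y p.2) = ∑ p : (Y → S) × S, f p.1 := by
    have hi : Function.Involutive fun p : (Y → S) × S => (Function.update p.1 y p.2, p.1 y) := by
      rintro ⟨σ, s⟩; simp
    exact Fintype.sum_equiv hi.toPerm _ _ fun p => rfl
  rw [Fintype.sum_prod_type, Fintype.sum_prod_type] at h
  rw [h, smul_sum]
  simp

/-- Bessel inequality for the conditional expectations with respect to single coordinates. -/
lemma bessel {Y S : Type} [Fintype Y] [DecidableEq Y] [Fintype S] [Nonempty S] (F : (Y → S) → V)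
    (ψ : V) : ∑ y, ∑ s, ‖(Fintype.card (Y → S) : ℝ)⁻¹ • ∑ σ, F (Function.update σ y s) -
        (Fintype.card (Y → S) : ℝ)⁻¹ • ∑ σ, F σ‖ ^ 2 ≤
      Fintype.card S * ((Fintype.card (Y → S) : ℝ)⁻¹ * ∑ σ, ‖F σ - ψ‖ ^ 2) := by
  set N : ℝ := (Fintype.card (Y → S) : ℝ) with hN
  set c : ℝ := (Fintype.card S : ℝ) with hc
  have hN0 : 0 < N := by rw [hN]; exact_mod_cast Fintype.card_pos
  have hc0 : 0 < c := by rw [hc]; exact_mod_cast Fintype.card_pos
  set φ : V := N⁻¹ • ∑ σ, F σ with hφ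
  set a : Y → S → V := fun y s => N⁻¹ • ∑ σ, F (Function.update σ y s) - φ with ha
  have h0 : ∀ y, ∑ s, a y s = 0 := by
    intro y
    simp only [ha, sum_sub_distrib, ← smul_sum, sum_const, card_univ]
    rw [sum_comm, resample, hφ, smul_comm, sub_self]
  have h1 : ∀ y, c * ∑ σ, inner ℝ (F σ - ψ) (a y (σ y)) = N * ∑ s, ‖a y s‖ ^ 2 := by
    intro y
    have := resample y fun σ => inner ℝ (F σ - ψ) (a y (σ y))
    simp only [Function.update_self, nsmul_eq_mul] at this
    rw [← this, sum_comm]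
    have e : ∀ s, ∑ σ : Y → S, inner ℝ (F (Function.update σ y s) - ψ) (a y s) =
        N * ‖a y s‖ ^ 2 + N * inner ℝ (φ - ψ) (a y s) := by
      intro s
      have e1 : ∑ σ : Y → S, (F (Function.update σ y s) - ψ) = N • (a y s + (φ - ψ)) := by
        simp only [ha, sum_sub_distrib, sum_const, card_univ, sub_add_sub_cancel, smul_sub,
          smul_smul, mul_inv_cancel₀ hN0.ne', one_smul, ← Nat.cast_smul_eq_nsmul ℝ, ← hN]
      rw [← sum_inner, e1, real_inner_smul_left, inner_add_left, real_inner_self_eq_norm_sq,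
        mul_add]
    simp only [e, sum_add_distrib, ← mul_sum, ← inner_sum, h0, inner_zero_right, mul_zero,
      add_zero]
  have h2 : ∀ y y', c * ∑ σ : Y → S, inner ℝ (a y (σ y)) (a y' (σ y')) =
      if y' = y then N * ∑ s, ‖a y s‖ ^ 2 else 0 := by
    intro y y'
    have := resample y fun σ => inner ℝ (a y (σ y)) (a y' (σ y'))
    simp only [Function.update_self, nsmul_eq_mul] at this
    rw [← this]
    split_ifs with h
    · subst h
      simp only [Function.update_self, real_inner_self_eq_norm_sq, sum_const, card_univ,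
        nsmul_eq_mul, hN]
    · simp only [Function.update_of_ne h, ← sum_inner, h0, inner_zero_left, sum_const_zero]
  have h3 : 0 ≤ ∑ σ : Y → S, ‖(F σ - ψ) - ∑ y, a y (σ y)‖ ^ 2 := sum_nonneg fun _ _ => sq_nonneg _
  have h4 : ∀ σ : Y → S, ‖(F σ - ψ) - ∑ y, a y (σ y)‖ ^ 2 = ‖F σ - ψ‖ ^ 2 -
      2 * ∑ y, inner ℝ (F σ - ψ) (a y (σ y)) + ∑ y, ∑ y', inner ℝ (a y (σ y)) (a y' (σ y')) := by
    intro σ
    rw [norm_sub_sq_real, inner_sum, ← real_inner_self_eq_norm_sq (∑ y, a y (σ y)), sum_inner]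
    simp only [inner_sum]
  simp only [h4, sum_add_distrib, sum_sub_distrib, ← mul_sum] at h3
  have h5 : c * ∑ σ : Y → S, ∑ y, inner ℝ (F σ - ψ) (a y (σ y)) = N * ∑ y, ∑ s, ‖a y s‖ ^ 2 := by
    rw [sum_comm, mul_sum, mul_sum]; exact sum_congr rfl fun y _ => h1 y
  have h6 : c * ∑ σ : Y → S, ∑ y, ∑ y', inner ℝ (a y (σ y)) (a y' (σ y')) =
      N * ∑ y, ∑ s, ‖a y s‖ ^ 2 := by
    rw [sum_comm, mul_sum, mul_sum]
    refine sum_congr rfl fun y _ => ?_
    rw [sum_comm, mul_sum]
    simp only [h2, sum_ite_eq', mem_univ, if_true]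
  have h7 := mul_nonneg hc0.le h3
  have h8 : N * ∑ y, ∑ s, ‖a y s‖ ^ 2 ≤ c * ∑ σ, ‖F σ - ψ‖ ^ 2 := by nlinarith
  rw [mul_left_comm, le_inv_mul_iff₀ hN0]
  exact h8

/-- Tensorisation. -/
lemma tensor {Y T : Type} [Fintype Y] [DecidableEq Y] [Fintype T] [Nonempty T]
    (S : (Y → G) →* G) (u : Y → T → G) (ψ : V) {δ : ℝ}
    (h : ∀ (e : Y → Bool) (τ : Y → T), mv π ψ (S fun y => if e y then u y (τ y) else 1) ≤ δ) :
    ∃ φ : V, ‖φ - ψ‖ ≤ δ ∧
      ∑ y, ∑ t, mv π φ (S (Pi.mulSingle y (u y t))) ^ 2 ≤ 4 * Fintype.card T * δ ^ 2 := by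
  set ℓ : (Y → Bool × T) → Y → G := fun σ y => if (σ y).1 then u y (σ y).2 else 1 with hℓ
  set F : (Y → Bool × T) → V := fun σ => π (S (ℓ σ)) ψ with hF
  have hF1 : ∀ σ, ‖F σ - ψ‖ ≤ δ := fun σ => h (fun y => (σ y).1) fun y => (σ y).2
  have hδ : 0 ≤ δ := (norm_nonneg _).trans (hF1 (Classical.arbitrary _))
  set N : ℝ := (Fintype.card (Y → Bool × T) : ℝ) with hN
  have hN0 : 0 < N := by rw [hN]; exact_mod_cast Fintype.card_pos
  set φ : V := N⁻¹ • ∑ σ, F σ with hφ
  set M : Y → Bool × T → V := fun y s => N⁻¹ • ∑ σ, F (Function.update σ y s) with hM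
  refine ⟨φ, ?_, ?_⟩
  · have : φ - ψ = N⁻¹ • ∑ σ, (F σ - ψ) := by
      simp only [hφ, sum_sub_distrib, sum_const, card_univ, smul_sub, ← Nat.cast_smul_eq_nsmul ℝ,
        smul_smul, ← hN, inv_mul_cancel₀ hN0.ne', one_smul]
    rw [this, norm_smul, Real.norm_eq_abs, abs_of_pos (inv_pos.2 hN0), inv_mul_le_iff₀ hN0]
    refine (norm_sum_le _ _).trans ((sum_le_sum fun σ _ => hF1 σ).trans_eq ?_)
    simp [hN]
  · have hb := bessel F ψ
    have h1 : N⁻¹ * ∑ σ, ‖F σ - ψ‖ ^ 2 ≤ δ ^ 2 := by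
      rw [inv_mul_le_iff₀ hN0]
      refine (sum_le_sum fun σ _ => pow_le_pow_left₀ (norm_nonneg _) (hF1 σ) 2).trans_eq ?_
      simp [hN]
    have h2 : ∀ y t, M y (true, t) = π (S (Pi.mulSingle y (u y t))) (M y (false, t)) := by
      intro y t
      simp only [hM, map_smul, map_sum, hF, ← pi_mul, ← map_mul]
      congr 1
      refine sum_congr rfl fun σ _ => ?_
      congr 3
      funext y'
      by_cases hy : y' = y
      · subst hy; simp [hℓ]
      · simp [hℓ, hy]
    have h3 : ∀ y t, mv π φ (S (Pi.mulSingle y (u y t))) ^ 2 ≤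
        2 * (‖M y (true, t) - φ‖ ^ 2 + ‖M y (false, t) - φ‖ ^ 2) := by
      intro y t
      have e : π (S (Pi.mulSingle y (u y t))) φ - φ = (M y (true, t) - φ) -
          π (S (Pi.mulSingle y (u y t))) (M y (false, t) - φ) := by
        rw [h2, map_sub]; abel
      have h4 := norm_sub_le (M y (true, t) - φ)
        (π (S (Pi.mulSingle y (u y t))) (M y (false, t) - φ))
      rw [← e, LinearIsometryEquiv.norm_map] at h4
      refine (pow_le_pow_left₀ (norm_nonneg _) h4 2).trans ?_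
      nlinarith [sq_nonneg (‖M y (true, t) - φ‖ - ‖M y (false, t) - φ‖)]
    refine (sum_le_sum fun y _ => sum_le_sum fun t _ => h3 y t).trans ?_
    have h5 : ∀ y, ∑ t, 2 * (‖M y (true, t) - φ‖ ^ 2 + ‖M y (false, t) - φ‖ ^ 2) =
        2 * ∑ s, ‖M y s - φ‖ ^ 2 := by
      intro y
      rw [Fintype.sum_prod_type, Fintype.sum_bool, ← mul_sum, sum_add_distrib]
    simp only [h5, ← mul_sum]
    have h6 : (Fintype.card (Bool × T) : ℝ) = 2 * Fintype.card T := by simp
    have h7 := mul_le_mul_of_nonneg_left h1 (Nat.cast_nonneg (α := ℝ) (Fintype.card (Bool × T)))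
    have h8 := hb.trans h7
    rw [h6] at h8
    linarith

/-- The defects of invariance under commuting finite groups add in quadrature. -/
lemma quad {A : Type} [Group A] [Fintype A] (n : ℕ) (Z : ℕ → (A →* G))
    (hZ : ∀ i j a b, i < n → j < n → i ≠ j → Commute (Z i a) (Z j b)) (φ : ℕ → V) :
    ∃ x y z : V, φ 0 = x + y + z ∧ (∀ j < n, ∀ a, π (Z j a) z = z) ∧
      ‖x‖ ^ 2 ≤ ∑ j ∈ range n, (Fintype.card A : ℝ)⁻¹ * ∑ a, mv π (φ j) (Z j a) ^ 2 ∧
      ‖y‖ ≤ ∑ j ∈ range n, ‖φ (j + 1) - φ j‖ := by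
  induction n generalizing Z φ with
  | zero => exact ⟨0, 0, φ 0, by simp, by simp, by simp, by simp⟩
  | succ n ih =>
    obtain ⟨x, y, z, h1, h2, h3, h4⟩ := ih (fun j => Z (j + 1))
      (fun i j a b hi hj hij => hZ _ _ a b (by omega) (by omega) (by omega)) fun j => φ (j + 1)
    set c : ℝ := (Fintype.card A : ℝ) with hc
    have hc0 : 0 < c := by rw [hc]; exact_mod_cast Fintype.card_pos
    set Q : V → V := fun v => c⁻¹ • ∑ a, π (Z 0 a) v with hQ
    have Qadd : ∀ v w, Q (v + w) = Q v + Q w := by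
      intro v w; simp only [hQ, map_add, sum_add_distrib, smul_add]
    have Qinv : ∀ v b, π (Z 0 b) (Q v) = Q v := by
      intro v b
      simp only [hQ, map_smul, map_sum, ← pi_mul, ← map_mul]
      congr 1
      exact Fintype.sum_equiv (Equiv.mulLeft b) _ _ fun a => rfl
    have Qle : ∀ v, ‖Q v‖ ≤ ‖v‖ := by
      intro v
      rw [hQ, norm_smul, Real.norm_eq_abs, abs_of_pos (inv_pos.2 hc0), inv_mul_le_iff₀ hc0]
      refine (norm_sum_le _ _).trans_eq ?_
      simp [hc]
    have Qorth : ∀ v w, inner ℝ (v - Q v) (Q w) = 0 := by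
      intro v w
      have e : ∀ a, inner ℝ (π (Z 0 a) v) (Q w) = inner ℝ v (Q w) := by
        intro a
        conv_lhs => rw [← Qinv w a]
        exact (π (Z 0 a)).inner_map_map _ _
      have : inner ℝ (Q v) (Q w) = inner ℝ v (Q w) := by
        conv_lhs => rw [hQ]
        simp only [real_inner_smul_left, sum_inner]
        change c⁻¹ * ∑ a, inner ℝ (π (Z 0 a) v) (Q w) = _
        simp only [e, sum_const, card_univ, nsmul_eq_mul, ← hc, ← mul_assoc,
          inv_mul_cancel₀ hc0.ne', one_mul]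
      rw [inner_sub_left, this, sub_self]
    have Qdef : ∀ v, ‖v - Q v‖ ^ 2 ≤ c⁻¹ * ∑ a, mv π v (Z 0 a) ^ 2 := by
      intro v
      have e : Q v - v = c⁻¹ • ∑ a, (π (Z 0 a) v - v) := by
        simp only [hQ, sum_sub_distrib, sum_const, card_univ, smul_sub,
          ← Nat.cast_smul_eq_nsmul ℝ, smul_smul, ← hc, inv_mul_cancel₀ hc0.ne', one_smul]
      rw [norm_sub_rev, e, norm_smul, Real.norm_eq_abs, abs_of_pos (inv_pos.2 hc0), mul_pow]
      have h5 : ‖∑ a, (π (Z 0 a) v - v)‖ ^ 2 ≤ c * ∑ a, mv π v (Z 0 a) ^ 2 :=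
        (pow_le_pow_left₀ (norm_nonneg _) (norm_sum_le _ _) 2).trans
          (by simpa [hc, mv] using sq_sum_le_card_mul_sum_sq (s := univ)
                (f := fun a => ‖π (Z 0 a) v - v‖))
      refine (mul_le_mul_of_nonneg_left h5 (sq_nonneg _)).trans_eq ?_
      field_simp
    refine ⟨(φ 0 - Q (φ 0)) + Q x, Q (y + -(φ 1 - φ 0)), Q z, ?_, ?_, ?_, ?_⟩
    · have : φ 0 = x + (y + -(φ 1 - φ 0)) + z := by
        have h5 : φ 1 = x + y + z := h1
        rw [h5]; abel
      have h6 := congrArg Q this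
      rw [Qadd, Qadd] at h6
      rw [h6]; abel
    · intro j hj a
      rcases j with _ | j
      · exact Qinv z a
      · simp only [hQ, map_smul, map_sum, ← pi_mul]
        congr 1
        refine sum_congr rfl fun b _ => ?_
        rw [(hZ _ _ a b hj (by omega) (by omega)).eq, pi_mul, h2 j (by omega) a]
    · rw [norm_add_sq_real, Qorth, sum_range_succ']
      have h5 := pow_le_pow_left₀ (norm_nonneg _) (Qle x) 2
      have h6 := Qdef (φ 0)
      linarith
    · rw [sum_range_succ']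
      refine (Qle _).trans ((norm_add_le _ _).trans ?_)
      rw [norm_neg]; exact add_le_add h4 le_rfl

/-- Finitely supported real functions with the `ℓ²` norm. -/
def L2 (G : Type) : Type := G →₀ ℝ

noncomputable instance (G : Type) : AddCommGroup (L2 G) := inferInstanceAs (AddCommGroup (G →₀ ℝ))
noncomputable instance (G : Type) : Module ℝ (L2 G) := inferInstanceAs (Module ℝ (G →₀ ℝ))

noncomputable def L2.ip {G : Type} (f g : G →₀ ℝ) : ℝ := f.sum fun x r => r * g x

lemma L2.ip_eq {G : Type} (f g : G →₀ ℝ) {s : Finset G} (h : f.support ⊆ s) :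
    L2.ip f g = ∑ x ∈ s, f x * g x :=
  Finsupp.sum_of_support_subset f h _ (by simp)

lemma L2.ip_comm {G : Type} (f g : G →₀ ℝ) : L2.ip f g = L2.ip g f := by
  classical
  rw [L2.ip_eq f g (s := f.support ∪ g.support) subset_union_left,
    L2.ip_eq g f (s := f.support ∪ g.support) subset_union_right]
  simp only [mul_comm]

lemma L2.ip_smul {G : Type} (f g : G →₀ ℝ) (r : ℝ) : L2.ip (r • f) g = r * L2.ip f g := by
  rw [L2.ip_eq _ _ Finsupp.support_smul, L2.ip_eq f g subset_rfl, mul_sum]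
  simp [mul_assoc]

lemma L2.ip_definite {G : Type} (f : G →₀ ℝ) (h : L2.ip f f = 0) : f = 0 := by
  rw [L2.ip_eq f f subset_rfl, sum_eq_zero_iff_of_nonneg fun x _ => mul_self_nonneg _] at h
  refine Finsupp.ext fun x => ?_
  by_contra h2
  exact h2 (mul_self_eq_zero.1 (h x (Finsupp.mem_support_iff.2 h2)))

def L2.fn {G : Type} (f : L2 G) : G →₀ ℝ := f

@[reducible] noncomputable def L2.core (G : Type) : InnerProductSpace.Core ℝ (L2 G) where
  inner f g := L2.ip f g
  conj_inner_symm f g := by simpa using L2.ip_comm _ _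
  re_inner_nonneg f := by
    change 0 ≤ L2.ip f f
    exact sum_nonneg fun x _ => mul_self_nonneg _
  add_left f g h := Finsupp.sum_add_index' (by simp) (by intros; ring)
  smul_left f g r := L2.ip_smul f g r
  definite f h := L2.ip_definite f h

noncomputable instance (G : Type) : NormedAddCommGroup (L2 G) :=
  @InnerProductSpace.Core.toNormedAddCommGroup ℝ (L2 G) _ _ _ (L2.core G)

noncomputable instance (G : Type) : InnerProductSpace ℝ (L2 G) :=
  InnerProductSpace.ofCore (L2.core G).toCore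

lemma L2.norm_sq {G : Type} (f : G →₀ ℝ) {s : Finset G} (h : f.support ⊆ s) :
    ‖(show L2 G from f)‖ ^ 2 = ∑ x ∈ s, f x ^ 2 := by
  rw [← real_inner_self_eq_norm_sq]
  change L2.ip f f = _
  rw [L2.ip_eq f f h]; simp only [sq]

/-- The left regular representation. -/
noncomputable def reg (G : Type) [Group G] : G →* (L2 G ≃ₗᵢ[ℝ] L2 G) where
  toFun g :=
    { toLinearEquiv := Finsupp.domLCongr (Equiv.mulLeft g)
      norm_map' := fun f => by
        refine (sq_eq_sq₀ (norm_nonneg _) (norm_nonneg _)).1 ?_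
        refine (L2.norm_sq (Finsupp.equivMapDomain (Equiv.mulLeft g) f) subset_rfl).trans ?_
        refine Eq.trans ?_ (L2.norm_sq f subset_rfl).symm
        exact Finsupp.sum_equivMapDomain (Equiv.mulLeft g) f fun _ r => r ^ 2 }
  map_one' := by
    ext1 f; refine Finsupp.ext fun x => ?_
    change f.fn (1⁻¹ * x) = f.fn x
    simp
  map_mul' g h := by
    ext1 f; refine Finsupp.ext fun x => ?_
    change f.fn ((g * h)⁻¹ * x) = f.fn (h⁻¹ * (g⁻¹ * x))
    simp [mul_assoc]

/-- The indicator function. -/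
noncomputable def ind {G : Type} (E : Finset G) : L2 G := Finsupp.indicator E fun _ _ => (1 : ℝ)

lemma mv_ind {G : Type} [Group G] [DecidableEq G] (E : Finset G) (g : G) :
    mv (reg G) (ind E) g ^ 2 = 2 * (E.filter fun x => g * x ∉ E).card := by
  set f : G →₀ ℝ := (reg G g (ind E) - ind E : L2 G) with hf
  have h1 : ∀ x, f x = (if g⁻¹ * x ∈ E then 1 else 0) - (if x ∈ E then 1 else 0) := by
    intro x
    change Finsupp.indicator E (fun _ _ => (1 : ℝ)) (g⁻¹ * x) -
      Finsupp.indicator E (fun _ _ => (1 : ℝ)) x = _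
    simp [Finsupp.indicator_apply]
  set E' := E.image (g * ·) with hE'
  have h2 : ∀ x, g⁻¹ * x ∈ E ↔ x ∈ E' := by
    intro x
    simp only [hE', mem_image]
    exact ⟨fun h => ⟨_, h, by simp⟩, by rintro ⟨y, hy, rfl⟩; simpa⟩
  have h3 : f.support ⊆ (E' \ E) ∪ (E \ E') := by
    intro x hx
    rw [Finsupp.mem_support_iff, h1] at hx
    simp only [h2] at hx
    simp only [mem_union, mem_sdiff]
    by_cases a : x ∈ E' <;> by_cases b : x ∈ E <;> simp [a, b] at hx ⊢
  have h4 := L2.norm_sq f h3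
  have h5 : ∀ x ∈ (E' \ E) ∪ (E \ E'), f x ^ 2 = 1 := by
    intro x hx
    simp only [h1, h2]
    simp only [mem_union, mem_sdiff] at hx
    by_cases a : x ∈ E' <;> by_cases b : x ∈ E <;> simp [a, b] at hx ⊢
  rw [sum_congr rfl h5, sum_const, card_union_of_disjoint disjoint_sdiff_sdiff] at h4
  have h6 : E'.card = E.card := card_image_of_injective _ (mul_right_injective g)
  have h7 : (E' \ E).card = (E.filter fun x => g * x ∉ E).card := by
    rw [← card_image_of_injective (E.filter fun x => g * x ∉ E) (mul_right_injective g)]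
    congr 1
    ext x
    simp only [mem_sdiff, hE', mem_image, mem_filter]
    constructor
    · rintro ⟨⟨y, hy, rfl⟩, h⟩; exact ⟨y, ⟨hy, h⟩, rfl⟩
    · rintro ⟨y, ⟨hy, h⟩, rfl⟩; exact ⟨⟨y, hy, rfl⟩, h⟩
  rw [← card_sdiff_comm h6, h7] at h4
  refine Eq.trans h4 ?_
  simp; ring

end Pool.Agent.P.MP_0b0f5a_al
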