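import Pool.Agent.P.MP_0b0f5a_al.Stage1

/-!
The lower bound for the size of a Følner set.
-/

namespace Pool.Agent.P.MP_0b0f5a_al

open Equiv Finset

variable {ω : ℕ → Fin 3}

open Classical in
/-- The number of points of `E` that leave `E` under `g`. -/
noncomputable def bd (E : Finset Γ) (g : Γ) : ℕ := (E.filter fun x => g * x ∉ E).card

open Classical in
lemma bd_mul (E : Finset Γ) (g h : Γ) : bd E (g * h) ≤ bd E g + bd E h := by
  have h1 : (E.filter fun x => h * x ∈ E ∧ g * (h * x) ∉ E).card ≤ bd E g :=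
    card_le_card_of_injOn (h * ·) (fun x hx => mem_filter.2 (mem_filter.1 hx).2)
      (mul_right_injective _).injOn
  refine le_trans (card_le_card fun x hx => ?_) ((card_union_le _ _).trans (add_le_add h1 le_rfl))
  simp only [mem_filter, mem_union, mul_assoc] at hx ⊢
  tauto

lemma bd_len {E : Finset Γ} {n c : ℕ} (hF : ∀ s ∈ gens ω, n * (2 * bd E s) ≤ E.card) {g : Γ}
    (h : Len ω c g) : n * (2 * bd E g) ≤ c * E.card := by
  obtain ⟨l, h1, h2, rfl⟩ := h
  refine le_trans ?_ (Nat.mul_le_mul_right _ h2)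
  clear h2
  induction l with
  | nil => simp [bd]
  | cons s l ih =>
    have h3 := ih fun x hx => h1 x (List.mem_cons_of_mem _ hx)
    have h4 := hF s (h1 s List.mem_cons_self)
    have h5 := Nat.mul_le_mul_left (n * 2) (bd_mul E s l.prod)
    rw [List.prod_cons, List.length_cons]
    nlinarith

lemma sig_sq {D : Γ} (h : D * D = 1) : sig (genA, D) * sig (genA, D) = 1 := by
  rw [sig_mul, genA_sq, h]; exact map_one sig

lemma dd_disj {N : ℕ} {s s' : ℕ} (h : 4 * (s + 1) ≤ 2 ^ N) (h' : 4 * (s' + 1) ≤ 2 ^ N)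
    (hs : s ≠ s') (g g' : Γ) : Perm.Disjoint (dd N s g) (dd N s' g') := by
  have h1 : (4 : ℤ) * (s + 1) ≤ 2 ^ N := by exact_mod_cast h
  have h2 : (4 : ℤ) * (s' + 1) ≤ 2 ^ N := by exact_mod_cast h'
  refine Perm.Disjoint.mul_left (Perm.Disjoint.mul_right ?_ ?_) (Perm.Disjoint.mul_right ?_ ?_) <;>
    exact iota_disj (not_dvd_of_lt (by omega) (by omega) (by omega) (by omega) (by omega)) _ _

lemma dd_half {N : ℕ} {s : ℕ} (h : 4 * (s + 1) ≤ 2 ^ N) (g : Γ) :
    Perm.Disjoint (iota N (4 * s) g) (iota N (4 * s + 2) g) := by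
  have h1 : (4 : ℤ) * (s + 1) ≤ 2 ^ N := by exact_mod_cast h
  exact iota_disj (not_dvd_of_lt (by omega) (by omega) (by omega) (by omega) (by omega)) _ _

lemma Sys.single_disj {Y : Type} [DecidableEq Y] {t : Γ} {S : (Y → Γ) →* Γ} (hS : Sys t S)
    {y y' : Y} {g g' : Γ} (h : y = y' → Perm.Disjoint g g') :
    Perm.Disjoint (S (Pi.mulSingle y g)) (S (Pi.mulSingle y' g')) := by
  refine hS.disj _ _ fun z => ?_
  by_cases h1 : z = y
  · by_cases h2 : z = y'
    · subst h1 h2; simpa using h rfl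
    · simp [h2, Perm.disjoint_one_right]
  · simp [h1, Perm.disjoint_one_left]

lemma sys_next {Y : Type} [DecidableEq Y] {t : Γ} {S : (Y → Γ) →* Γ} (hS : Sys t S) (y : Y)
    {n J W : ℕ} (h : 4 * W * J = 2 ^ n) (D : Γ) :
    Sys (S (Pi.mulSingle y (pp (2 * W) (sig (genA, D)) ^ J)))
      ((S.comp (MonoidHom.mulSingle (fun _ => Γ) y)).comp (sg.comp (S2 h))) := by
  have h2 : Sys (rho ^ 2 ^ n) (S2 h) := (glue_sys _ _ _).dup
  refine ⟨fun g => ?_, fun g g' hg => hS.single_disj fun _ => sig_disj (h2.disj _ _ hg), ?_⟩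
  · change _ * S (Pi.mulSingle y (sig (S2 h g, 1))) * _ = S (Pi.mulSingle y (sig (S2 h _, 1)))
    rw [← map_inv, ← map_mul, ← map_mul, ← Pi.mulSingle_inv, ← Pi.mulSingle_mul,
      ← Pi.mulSingle_mul, pp_conj, ← h2.conj, ← h, cj, ← zpow_natCast,
      show 2 * (2 * (W : ℤ)) * J = (4 * W * J : ℕ) by push_cast; ring]
  · refine (hS.inj.comp (Pi.mulSingle_injective (M := fun _ => Γ) y)).comp
      ((sig_inj.comp fun a b hab => congrArg Prod.fst hab).comp h2.inj)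

lemma lower_core (hω : ∀ i, ω i ≠ 2) {h L w N : ℕ} {d X1 X2 : Γ} (hd : d * d = 1)
    (hd1 : d ≠ 1) {k : Fin 3} (hD : genS k (fun i => ω (i + h)) = En (L + 2) (sig (genA, X1)))
    (hX1 : Pat (h + L + w + 2) (sig (genA, X2)) X1) (hX2 : Pat N d X2) {G R R' T b n : ℕ}
    (hG : 1 ≤ G) (hT : 1 ≤ T) (hRG : 8 * T * 2 ^ (h + L) ≤ R * G) (hR : R ^ 2 ≤ 2 ^ (h + L))
    (hR' : R' ^ 2 ≤ 2 ^ (h + L) * 2 ^ w) (hTN : 4 * (T * R') ≤ 2 ^ N)
    (hb : 2 * (G * (2 * (2 ^ h * (3 ^ h * (28 * 2 ^ L) + 4 * 2 ^ h)) +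
      8 * 2 ^ w * (2 ^ (h + (L + 2)) * 2))) + 2 ^ w * (4 * (2 ^ h * (3 ^ h * (28 * 2 ^ L) +
        4 * 2 ^ h)) + 40 * (2 ^ (h + (L + 2)) * 2)) ≤ b) (hn : 972 ^ 2 * b ≤ n) (hn0 : 0 < n)
    (E : Finset Γ) (hE : E.Nonempty) (hF : ∀ s ∈ gens ω, n * (2 * bd E s) ≤ E.card) :
    ((2 ^ (h + L) * (2 ^ (h + L) * 2 ^ w) * (T * R') : ℕ) : ℝ) * Real.log 2 ≤
      8 * Real.log E.card := by
  classical
  have hE0 : (0 : ℝ) < E.card := by exact_mod_cast hE.card_pos
  have hmv : ∀ g, mv (reg Γ) (ind E) g ^ 2 = 2 * bd E g := fun g => by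
    rw [mv_ind, bd]
  have hL : ∀ g, Len ω b g → mv (reg Γ) (ind E) g ≤ √E.card / 972 := by
    intro g hg
    refine abs_le_of_sq_le_sq' ?_ (by positivity) |>.2
    have h1 : n * (972 ^ 2 * (2 * bd E g)) ≤ n * E.card := by nlinarith [bd_len hF hg]
    have h2 : ((972 ^ 2 * (2 * bd E g) : ℕ) : ℝ) ≤ E.card := by
      exact_mod_cast Nat.le_of_mul_le_mul_left h1 hn0
    rw [hmv, div_pow, Real.sq_sqrt hE0.le, le_div_iff₀ (by norm_num)]
    push_cast at h2; linarith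
  have hd2 := sig_sq hX2.1
  have hd3 := sig_sq hX1.1
  have h4 : 4 * 2 ^ w * 2 ^ (h + L) = 2 ^ (h + L + w + 2) := by ring
  have hc : Fintype.card (Fin (2 ^ h) × Fin (2 ^ L)) = 2 ^ (h + L) := by simp [pow_add]
  have hS := S1_sys h L
  obtain ⟨Q, q1, q2⟩ := stage1 (π := reg Γ) hS h4 hd2 hX1 ((len_rho hω).pow _)
    (base_cost hω h L hd3 hD) hG (le_trans (Nat.le_mul_of_pos_left _ (by omega)) hRG)
    hc.ge (hR.trans hc.ge) hb (ind E) (by positivity) hL
  have key : ∀ y ∈ Q, ∃ Q' : Finset (Fin (2 ^ (h + L)) × Fin (2 ^ w)),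
      2 ^ (h + L) * 2 ^ w ≤ 2 * Q'.card ∧ ∀ q ∈ Q', ∀ s < T * R', mv (reg Γ) (ind E)
        (S1 h L (Pi.mulSingle y (sg (S2 h4 (Pi.mulSingle q (sig (dd N (s : ℕ) d, 1))))))) ≤
          54 * (18 * (√E.card / 972)) := by
    intro y hy
    have := stage2 (π := reg Γ) (sys_next hS y h4 X1) hX2
      (ind E) (θ := 18 * (√E.card / 972)) (by positivity) hT (R := R') (by simpa using hR')
      (fun i hi => by
        rw [← map_pow, ← Pi.mulSingle_pow, ← pow_mul]
        exact (q2 y hy).1 _ (le_trans (by rw [mul_comm]; gcongr) hRG))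
      (q2 y hy).2
    simpa using this
  choose! Q' k1 k2 using key
  set η : (Σ _ : Fin (2 ^ h) × Fin (2 ^ L), (Fin (2 ^ (h + L)) × Fin (2 ^ w)) × ℕ) → Γ :=
    fun α => S1 h L (Pi.mulSingle α.1 (sg (S2 h4 (Pi.mulSingle α.2.1
      (sig (dd N (α.2.2 : ℕ) d, 1)))))) with hη
  set A := Q.sigma fun y => Q' y ×ˢ range (T * R') with hA
  have hs : ∀ α ∈ A, 4 * (α.2.2 + 1) ≤ 2 ^ N := fun α hα => by
    have := mem_range.1 (mem_product.1 (mem_sigma.1 hα).2).2
    omega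
  have c1 := cube A η (fun α hα => by
      have hS' := sys_next hS α.1 h4 1
      set β : Γ →* Γ := (((S1 h L).comp (MonoidHom.mulSingle (fun _ => Γ) α.1)).comp
        (sg.comp (S2 h4))).comp ((MonoidHom.mulSingle (fun _ => Γ) α.2.1).comp sg) with hβ
      have e : η α = β (dd N (α.2.2 : ℕ) d) := rfl
      have hi : Function.Injective β :=
        hS'.inj.comp ((Pi.mulSingle_injective (M := fun _ => Γ) α.2.1).comp
          (sig_inj.comp fun a b hab => congrArg Prod.fst hab))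
      have hh := dd_half (hs α hα) d
      rw [e, ← map_mul, Ne, map_eq_one_iff _ hi, map_eq_one_iff _ hi, dd, hh.mul_eq_one_iff,
        map_eq_one_iff _ (iota_inj _ _)]
      refine ⟨?_, fun h => hd1 h.1⟩
      rw [hh.commute.symm.mul_mul_mul_comm, ← map_mul, ← map_mul, hd, map_one, map_one, mul_one])
    (fun α hα α' hα' hne => by
      refine hS.single_disj fun h1 => sig_disj ?_
      refine ((glue_sys _ _ _).dup : Sys _ (S2 h4)).single_disj fun h2 => sig_disj ?_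
      refine dd_disj (hs α hα) (hs α' hα') (fun h3 => hne ?_) _ _
      obtain ⟨a, b, c⟩ := α
      obtain ⟨a', b', c'⟩ := α'
      simp only at h1 h2 h3
      rw [h1, h2, h3]) E
  have c2 : ∀ α ∈ A, (E.card : ℝ) / 2 ≤ (E.filter fun x => η α * x ∈ E).card := by
    intro α hα
    obtain ⟨h1, h2⟩ := mem_sigma.1 hα
    have h3 := pow_le_pow_left₀ (mv_nonneg _ _)
      (k2 α.1 h1 α.2.1 (mem_product.1 h2).1 α.2.2 (mem_range.1 (mem_product.1 h2).2)) 2
    rw [hmv, show 54 * (18 * (√E.card / 972)) = √E.card by ring, Real.sq_sqrt hE0.le] at h3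
    have h5 : ((E.filter fun x => η α * x ∈ E).card : ℝ) + bd E (η α) = E.card := by
      exact_mod_cast card_filter_add_card_filter_not _
    change 2 * (bd E (η α) : ℝ) ≤ _ at h3
    linarith
  have c3 := card_nsmul_le_sum A _ _ c2
  have c4 : 2 ^ (h + L) * (2 ^ (h + L) * 2 ^ w) * (T * R') ≤ 4 * A.card := by
    have h1 : Q.card • (2 ^ (h + L) * 2 ^ w * (T * R')) ≤ 2 * A.card := by
      rw [hA, card_sigma, mul_sum]
      refine card_nsmul_le_sum _ _ _ fun y hy => ?_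
      rw [card_product, card_range, ← mul_assoc 2]
      exact Nat.mul_le_mul_right _ (k1 y hy)
    rw [hc] at q1
    have h2 := Nat.mul_le_mul_right (2 ^ (h + L) * 2 ^ w * (T * R')) q1
    rw [smul_eq_mul] at h1
    calc _ = 2 ^ (h + L) * (2 ^ (h + L) * 2 ^ w * (T * R')) := by ring
      _ ≤ _ := by linarith
  have c5 : ((2 ^ (h + L) * (2 ^ (h + L) * 2 ^ w) * (T * R') : ℕ) : ℝ) ≤ 4 * A.card := by
    exact_mod_cast c4
  have hl : 0 ≤ Real.log 2 := Real.log_nonneg one_le_two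
  rw [nsmul_eq_mul] at c3
  have c6 := (mul_le_mul_of_nonneg_right c3 hl).trans c1
  refine (mul_le_mul_of_nonneg_right c5 hl).trans (le_of_mul_le_mul_left ?_ hE0)
  linarith

end Pool.Agent.P.MP_0b0f5a_al
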