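import Pool.Agent.P.MP_0b0f5a_al.Words
import Pool.Agent.P.MP_0b0f5a_al.Hilbert
import Pool.Agent.P.MP_0b0f5a_al.Cube

/-!
The two tensorisation steps of the lower bound.
-/

namespace Pool.Agent.P.MP_0b0f5a_al

open Equiv Finset

/-- Conjugation by a power of the odometer. -/
def cj (i : ℤ) (g : Γ) : Γ := rho ^ i * g * (rho ^ i)⁻¹

@[simp] lemma cj_one (i) : cj i 1 = 1 := by simp [cj]

lemma cj_cj (i j g) : cj i (cj j g) = cj (i + j) g := by simp only [cj, zpow_add]; group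

/-- A rotation of one half. -/
def pp (l : ℤ) (d : Γ) : Γ := cj (2 * l) d * d

/-- A pair of toggles in one half. -/
def zz (e : ℤ) (d : Γ) : Γ :=
  cj (2 * e - 1) d * cj (2 * e + 1) d * cj (2 * e + 3) d * cj (2 * e + 1) d

lemma genA_zpow (l : ℤ) : genA * rho ^ l * genA = (rho ^ l)⁻¹ := by
  have := conj_zpow (a := genA) (b := rho) (i := l)
  rw [genA_inv, genA_rho, inv_zpow] at this
  exact this.symm

lemma pp_conj (l : ℤ) (D g : Γ) (j : ℕ) :
    pp l (sig (genA, D)) ^ j * sig (g, 1) * (pp l (sig (genA, D)) ^ j)⁻¹ =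
      sig (cj (2 * l * j) g, 1) := by
  have h1 : rho ^ l * genA * (rho ^ l)⁻¹ * genA = rho ^ (2 * l) := by
    rw [← genA_zpow, two_mul, zpow_add]
    simp only [mul_assoc, genA_sq, mul_one]
    rw [← mul_assoc genA, genA_sq, one_mul]
  rw [pp, cj, sig_conj, sig_mul, h1, ← map_pow, ← map_inv, ← map_mul, ← map_mul]
  simp [cj, ← zpow_natCast, ← zpow_mul]

lemma A_rho (x : Γ) : genA * (rho * x) = rho⁻¹ * (genA * x) := by
  rw [← genA_rho]; simp only [mul_assoc]; rw [← mul_assoc genA genA, genA_sq, one_mul]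

lemma zz_sig (e : ℤ) (X : Γ) : zz e (sig (genA, X)) =
    sig (cj e (X * cj 1 X * cj 2 X * cj 1 X), 1) := by
  have h0 : cj (-1) (sig (genA, X)) = sig (X, rho⁻¹ * genA * rho) := by
    simp [cj, sig_swap]
  have h1 : ∀ t : ℤ, cj (2 * t + -1) (sig (genA, X)) =
      sig (cj t X, cj t (rho⁻¹ * genA * rho)) := by
    intro t; rw [← cj_cj, h0, cj, sig_conj]; rfl
  have h2 := h1 1
  have h3 := h1 2
  norm_num at h2 h3
  have h4 : zz e (sig (genA, X)) = cj (2 * e) (cj (-1) (sig (genA, X)) * cj 1 (sig (genA, X)) *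
      cj 3 (sig (genA, X)) * cj 1 (sig (genA, X))) := by
    simp only [zz, sub_eq_add_neg, ← cj_cj (2 * e)]
    simp only [cj, mul_assoc, inv_mul_cancel_left]
  have h6 : ∀ x, genA * (genA * x) = x := fun x => by rw [← mul_assoc, genA_sq, one_mul]
  have h5 : ∀ x, genA * (rho⁻¹ * x) = rho * (genA * x) := fun x => by
    rw [← genA_rho]; simp only [mul_assoc, h6]
  have h7 : genA * rho⁻¹ = rho * genA := by simpa using h5 1
  have h8 : rho⁻¹ * genA * rho * cj 1 (rho⁻¹ * genA * rho) * cj 2 (rho⁻¹ * genA * rho) *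
      cj 1 (rho⁻¹ * genA * rho) = 1 := by
    simp [cj, zpow_ofNat, sq, mul_assoc, A_rho, h7, genA_sq]
  rw [h4, h0, h2, h3, sig_mul, sig_mul, sig_mul, h8, cj, sig_conj]
  simp [cj]

/-- The toggle `sig (genA, X)` yields two copies of `d` at level `n` of the first half. -/
def Pat (n : ℕ) (d X : Γ) : Prop :=
  X * X = 1 ∧ ∃ e : ℤ, (e = 0 ∨ e = 1) ∧ zz e (sig (genA, X)) = sig (dd n 0 d, 1)

lemma pat_zero {n : ℕ} (hn : 2 ≤ n) {d : Γ} (hd : d * d = 1) : Pat n d (En n d) := by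
  refine ⟨by rw [← map_mul, hd, map_one], 0, Or.inl rfl, ?_⟩
  rw [zz_sig, ← pattern_eq hn hd]
  simp [cj, zpow_ofNat]

lemma pat_one {n : ℕ} (hn : 2 ≤ n) {d : Γ} (hd : d * d = 1) (hc : Commute genB (En n d)) :
    Pat n d (genB * En n d) := by
  have h0 : En n d * En n d = 1 := by rw [← map_mul, hd, map_one]
  refine ⟨by rw [hc.symm.mul_mul_mul_comm, genB_sq, h0, mul_one], 1, Or.inr rfl, ?_⟩
  have h4 := four_le hn
  have h3 := (iota_disj (not_dvd_of_lt (n := n) (i := 0) (j := 1) (by norm_num) (by linarith)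
    (by norm_num) (by linarith) (by norm_num)) d d).commute.eq
  rw [zz_sig, dd]
  simp only [iota_apply, mul_zero, zero_add, one_mul, inv_one, mul_one,
    zpow_ofNat, pow_zero, pow_one] at h3 ⊢
  refine congrArg sig (Prod.ext ?_ rfl)
  set D := En n d
  have b0 : ∀ x, genB * (genB * x) = x := fun x => by rw [← mul_assoc, genB_sq, one_mul]
  have b1 : ∀ x, genB * (rho * x) = rho⁻¹ * (genB * x) := fun x => by
    rw [rho_inv, rho]; simp only [mul_assoc]
  have b2 : ∀ x, genB * (rho⁻¹ * x) = rho * (genB * x) := fun x => by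
    rw [rho_inv, rho]; simp only [mul_assoc, b0]
  have b3 : ∀ x, genB * (D * x) = D * (genB * x) := fun x => by
    rw [← mul_assoc, hc.eq, mul_assoc]
  have b4 : genB * rho⁻¹ = rho * genB := by simpa using b2 1
  have b5 : ∀ x, rho * (D * (rho⁻¹ * (D * x))) = D * (rho * (D * (rho⁻¹ * x))) := fun x => by
    have := congrArg (· * x) h3
    simp only [mul_assoc] at this
    exact this.symm
  have b6 : ∀ x, D * (D * x) = x := fun x => by rw [← mul_assoc, h0, one_mul]
  simp only [cj, zpow_ofNat, pow_one, sq, mul_inv_rev, mul_assoc, b1, b2, b3, b4, genB_sq,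
    inv_mul_cancel_left, mul_inv_cancel_left, mul_one]
  rw [b5, inv_mul_cancel_left, b6]

lemma cj_sig (q : ℤ) (n : ℕ) (d : Γ) : cj (8 * q) (sig (dd n 0 d, 1)) = sig (dd n q d, 1) := by
  rw [cj, show 8 * q = 2 * (4 * q) by ring, sig_conj, dd_conj]; simp

lemma Sys.cj {Y : Type} {t : Γ} {S : (Y → Γ) →* Γ} (h : Sys t S) (i : ℤ) (g : Y → Γ) :
    S (fun y => cj i (g y)) = t ^ i * S g * (t ^ i)⁻¹ := (h.conj_zpow i g).symm

lemma Sys.pp {Y : Type} {t : Γ} {S : (Y → Γ) →* Γ} (h : Sys t S) (l : ℤ) (g : Y → Γ) :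
    S (fun y => pp l (g y)) = t ^ (2 * l) * S g * (t ^ (2 * l))⁻¹ * S g := by
  rw [← h.cj, ← map_mul]; rfl

lemma Sys.zz {Y : Type} {t : Γ} {S : (Y → Γ) →* Γ} (h : Sys t S) (e : ℤ) (g : Y → Γ) :
    S (fun y => zz e (g y)) = t ^ (2 * e - 1) * S g * (t ^ (2 * e - 1))⁻¹ *
      (t ^ (2 * e + 1) * S g * (t ^ (2 * e + 1))⁻¹) * (t ^ (2 * e + 3) * S g * (t ^ (2 * e + 3))⁻¹) *
      (t ^ (2 * e + 1) * S g * (t ^ (2 * e + 1))⁻¹) := by
  simp only [← h.cj, ← map_mul]; rfl

lemma single_apply {Y : Type} [DecidableEq Y] (f : Γ → Γ) (hf : f 1 = 1) (y : Y) (g : Γ) :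
    (Pi.mulSingle y (f g) : Y → Γ) = fun y' => f ((Pi.mulSingle y g : Y → Γ) y') := by
  funext y'
  by_cases h : y' = y
  · subst h; simp
  · simp [h, hf]

variable {V : Type} [NormedAddCommGroup V] [InnerProductSpace ℝ V] {π : Γ →* (V ≃ₗᵢ[ℝ] V)}

lemma stage2 {Y : Type} [Fintype Y] [DecidableEq Y] {t : Γ} {S : (Y → Γ) →* Γ} (hS : Sys t S)
    {N : ℕ} {d X : Γ} (hX : Pat N d X) (ψ : V) {θ : ℝ} (hθ : 0 < θ) {T R : ℕ}
    (hT : 1 ≤ T) (hR : R ^ 2 ≤ Fintype.card Y) (h1 : ∀ i ≤ 8 * T, mv π ψ (t ^ i) ≤ θ)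
    (h2 : ∀ g : Y → Γ, (∀ y, g y = 1 ∨ g y = sig (genA, X)) → mv π ψ (S g) ≤ θ) :
    ∃ Q : Finset Y, Fintype.card Y ≤ 2 * Q.card ∧ ∀ y ∈ Q, ∀ s < T * R,
      mv π ψ (S (Pi.mulSingle y (sig (dd N (s : ℕ) d, 1)))) ≤ 54 * θ := by
  obtain ⟨-, e, he, hz⟩ := hX
  set D := sig (genA, X) with hD
  have h1' : ∀ i : ℤ, i.natAbs ≤ 8 * T → mv π ψ (t ^ i) ≤ θ := by
    intro i hi
    rcases Int.eq_nat_or_neg i with ⟨n, rfl | rfl⟩
    · simpa using h1 n (by simpa using hi)
    · simpa [mv_inv] using h1 n (by simpa using hi)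
  have hc : ∀ (i : ℤ) g, i.natAbs ≤ 8 * T → ∀ c, mv π ψ g ≤ c →
      mv π ψ (t ^ i * g * (t ^ i)⁻¹) ≤ c + 2 * θ := fun i g hi c hg => by
    linarith [mv_conj (π := π) ψ g (t ^ i), h1' i hi]
  obtain ⟨φ, h3, h4⟩ := tensor (π := π) S (fun _ (_ : Unit) => pp (2 * T) D) ψ (δ := 4 * θ) (by
    intro e _
    have e1 : (fun y => if e y then pp (2 * T) D else 1) =
        fun y => pp (2 * T) (if e y then D else 1) := by
      funext y; split_ifs <;> simp [pp]
    have e2 := h2 (fun y => if e y then D else 1) fun y => by split_ifs <;> simp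
    rw [e1, hS.pp]
    refine (mv_mul _ _ _).trans ?_
    linarith [hc (2 * (2 * T)) _ (by omega) _ e2])
  simp only [univ_unique, sum_singleton, Fintype.card_unique, Nat.cast_one] at h4
  refine ⟨_, markov _ (fun y => sq_nonneg _) (by positivity) h4, fun y hy s hs => ?_⟩
  have h5 := (mem_filter.1 hy).2
  set P := S (Pi.mulSingle y (pp (2 * T) D)) with hP
  have h6 : R * mv π φ P ≤ 12 * θ := by
    refine abs_le_of_sq_le_sq' ?_ (by positivity) |>.2
    have : (R : ℝ) ^ 2 ≤ Fintype.card Y := by exact_mod_cast hR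
    nlinarith [sq_nonneg (mv π φ P), sq_nonneg θ]
  have h7 : mv π ψ (P ^ (s / T)) ≤ 20 * θ := by
    have h8 : ((s / T : ℕ) : ℝ) ≤ R := by
      exact_mod_cast (Nat.div_lt_of_lt_mul hs).le
    have h9 := mv_pow (π := π) φ P (s / T)
    have h10 := mv_le_of_near (π := π) ψ φ (P ^ (s / T))
    nlinarith [mv_nonneg (π := π) φ P]
  have h8 : mv π ψ (S (Pi.mulSingle y (zz e D))) ≤ 12 * θ := by
    have e2 := h2 (Pi.mulSingle y D) fun y' => by by_cases h : y' = y <;> simp [h]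
    rw [single_apply (zz e) (by simp [zz]), hS.zz]
    refine (mv_mul _ _ _).trans ?_
    refine (add_le_add (mv_mul _ _ _) le_rfl).trans ?_
    refine (add_le_add (add_le_add (mv_mul _ _ _) le_rfl) le_rfl).trans ?_
    linarith [hc (2 * e - 1) _ (by omega) _ e2, hc (2 * e + 1) _ (by omega) _ e2,
      hc (2 * e + 3) _ (by omega) _ e2]
  have h9 : S (Pi.mulSingle y (sig (dd N (s : ℕ) d, 1))) = P ^ (s / T) *
      (t ^ (8 * ((s % T : ℕ) : ℤ)) * S (Pi.mulSingle y (zz e D)) *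
        (t ^ (8 * ((s % T : ℕ) : ℤ)))⁻¹) * (P ^ (s / T))⁻¹ := by
    rw [← hS.cj, ← single_apply (cj _) (cj_one _), hz, cj_sig, hP, ← map_pow,
      ← map_inv, ← map_mul, ← map_mul, ← Pi.mulSingle_pow, ← Pi.mulSingle_inv,
      ← Pi.mulSingle_mul, ← Pi.mulSingle_mul, pp_conj, cj,
      show 2 * (2 * (T : ℤ)) * (s / T : ℕ) = 4 * (T * (s / T) : ℕ) by push_cast; ring, dd_conj,
      ← Nat.cast_add, Nat.div_add_mod]
  have h10 := Nat.mod_lt s hT
  rw [h9]
  linarith [mv_conj (π := π) ψ (t ^ (8 * ((s % T : ℕ) : ℤ)) * S (Pi.mulSingle y (zz e D)) *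
    (t ^ (8 * ((s % T : ℕ) : ℤ)))⁻¹) (P ^ (s / T)), hc (8 * ((s % T : ℕ) : ℤ)) _ (by omega) _ h8]

/-- The positions of the second system. -/
def pos2 (J W : ℕ) (z : (Fin J × Fin W) × Bool) : ℤ :=
  4 * (W * z.1.1 + z.1.2) + if z.2 then 2 else 0

lemma sep2 {n J W : ℕ} (h : 4 * W * J = 2 ^ n) : Sep n (pos2 J W) := by
  have hb : ∀ b : Bool, (0 : ℤ) ≤ (if b then 2 else 0) ∧ (if b then 2 else 0 : ℤ) ≤ 2 := by
    rintro (_ | _) <;> simp
  refine sep_of (fun z => ?_) (fun z => ?_) ?_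
  · have := (hb z.2).1
    unfold pos2; positivity
  · have h1 : (z.1.1 : ℤ) + 1 ≤ J := by exact_mod_cast z.1.1.2
    have h2 : (z.1.2 : ℤ) + 1 ≤ W := by exact_mod_cast z.1.2.2
    have h3 := (hb z.2).2
    have h4 : (4 : ℤ) * W * J = 2 ^ n := by exact_mod_cast h
    rw [pos2, ← h4]; nlinarith
  · rintro ⟨⟨u, i⟩, b⟩ ⟨⟨u', i'⟩, b'⟩ e
    simp only [pos2] at e
    have h4 : (W : ℤ) * u + i = W * u' + i' ∧ b = b' := by
      cases b <;> cases b' <;> simp at e ⊢ <;> omega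
    have h5 : finProdFinEquiv (u, i) = finProdFinEquiv (u', i') := by
      ext; simp only [finProdFinEquiv_apply_val]; zify; linarith [h4.1]
    rw [finProdFinEquiv.injective h5, h4.2]

/-- The second system. -/
def S2 {n J W : ℕ} (h : 4 * W * J = 2 ^ n) : (Fin J × Fin W → Γ) →* Γ :=
  (glue _ _ (sep2 h)).comp (dup _)

lemma S2_single {n J W : ℕ} (h : 4 * W * J = 2 ^ n) (y g) :
    S2 h (Pi.mulSingle y g) = dd n (W * y.1 + y.2) g := by
  rw [S2, dup_single, dd]; simp [pos2]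

/-- The window `j`. -/
def win (J W j : ℕ) : (Fin W → Γ) →* (Fin J × Fin W → Γ) where
  toFun a z := if (z.1 : ℕ) = j then a z.2 else 1
  map_one' := by funext z; simp
  map_mul' a b := by funext z; by_cases h : (z.1 : ℕ) = j <;> simp [h]

lemma win_single {J W j : ℕ} (hj : j < J) (q : Fin W) (g : Γ) :
    win J W j (Pi.mulSingle q g) = Pi.mulSingle (⟨j, hj⟩, q) g := by
  funext ⟨a, b⟩
  by_cases h : a = ⟨j, hj⟩
  · subst h
    by_cases h' : b = q
    · subst h'; simp [win]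
    · simp [win, h']
  · have : (a : ℕ) ≠ j := fun h' => h (Fin.ext h')
    simp [win, h, this]

lemma win_shift {n J W : ℕ} (h : 4 * W * J = 2 ^ n) {j x : ℕ} (hj : x + j < J) (a : Fin W → Γ) :
    cj (4 * (W * x)) (S2 h (win J W j a)) = S2 h (win J W (x + j) a) := by
  have : (MulAut.conj (rho ^ (4 * (W * x : ℤ)))).toMonoidHom.comp ((S2 h).comp (win J W j)) =
      (S2 h).comp (win J W (x + j)) := by
    refine MonoidHom.pi_ext (M := fun _ : Fin W => Γ) fun q g => ?_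
    simp only [MonoidHom.comp_apply]
    rw [win_single hj, win_single (by omega : j < J), S2_single, S2_single]
    refine (dd_conj _ _ _ _).trans ?_
    congr 1; push_cast; ring
  exact DFunLike.congr_fun this a

/-- The group generated by an involution. -/
def two (d : Γ) (hd : d * d = 1) : Subgroup Γ where
  carrier := {1, d}
  one_mem' := by simp
  mul_mem' := by rintro a b (rfl | rfl) (rfl | rfl) <;> simp [hd]
  inv_mem' := by rintro a (rfl | rfl) <;> simp [inv_eq_of_mul_eq_one_right hd]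

noncomputable instance (d : Γ) (hd : d * d = 1) : Fintype (two d hd) :=
  (Set.toFinite ({1, d} : Set Γ)).fintype

/-- The first half. -/
def sg : Γ →* Γ := sig.comp (MonoidHom.inl _ _)

lemma sg_apply (g) : sg g = sig (g, 1) := rfl

variable {ω : ℕ → Fin 3}

lemma window_cost {Y : Type} {t : Γ} {S : (Y → Γ) →* Γ} (hS : Sys t S) {n J W : ℕ}
    (h : 4 * W * J = 2 ^ n) {d D : Γ} (hD : Pat n d D) {X c : ℕ} (ht : Len ω c t)
    (hX : ∀ g : Y → Γ, (∀ y, g y = 1 ∨ g y = sig (genA, D)) → Len ω X (S g))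
    (a : Y → Fin W → Γ) (ha : ∀ y q, a y q = 1 ∨ a y q = d) :
    Len ω (W * (4 * X + 40 * c)) (S fun y => sg (S2 h (win J W 0 (a y)))) := by
  classical
  obtain ⟨-, e0, he, hz⟩ := hD
  have hJ : 0 < J := Nat.pos_of_ne_zero (by rintro rfl; exact absurd h.symm (by positivity))
  have key := key_induction (fun q y => a y q) (fun q => q) W (fun q => q.2)
    (fun m p => Len ω (m * (4 * X + 32 * c))
      ((S fun y => sg (S2 h (win J W 0 fun q => p q y))) * (t ^ 8) ^ m))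
    (by
      have : (fun y : Y => sg (S2 h (win J W 0 fun q => (1 : Fin W → Y → Γ) q y))) = 1 := by
        funext y; exact (sg.comp ((S2 h).comp (win J W 0))).map_one
      rw [this]; simpa using Len.one 0) (by
      intro m hm p hp
      have e : (fun y : Y => sg (S2 h (win J W 0 fun q => (p * fun q : Fin W =>
          if (q : ℕ) = m then fun y => a y q else 1) q y))) =
          (fun y => sg (S2 h (win J W 0 fun q => p q y))) * fun y => cj (8 * (m : ℤ))
            (zz e0 (if a y ⟨m, hm⟩ = 1 then 1 else sig (genA, D))) := by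
        funext y
        have e1 : (fun q => (p * fun q : Fin W => if (q : ℕ) = m then fun y => a y q else 1) q y) =
            (fun q => p q y) * Pi.mulSingle (⟨m, hm⟩ : Fin W) (a y ⟨m, hm⟩) := by
          funext q
          by_cases hq : q = ⟨m, hm⟩
          · subst hq; simp
          · have : (q : ℕ) ≠ m := fun h' => hq (Fin.ext h')
            simp [hq, this]
        rw [e1, map_mul, map_mul, map_mul, win_single hJ, S2_single, Pi.mul_apply]
        congr 1
        split_ifs with h1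
        · simp [h1, dd, zz]
        · rw [(ha y _).resolve_left h1, hz, cj_sig, sg_apply]; simp
      have h1 := hX (fun y => if a y ⟨m, hm⟩ = 1 then 1 else sig (genA, D))
        fun y => by split_ifs <;> simp
      have h2 := (((h1.conj (ht.zpow (2 * e0 - 1))).mul (h1.conj (ht.zpow (2 * e0 + 1)))).mul
        (h1.conj (ht.zpow (2 * e0 + 3)))).mul (h1.conj (ht.zpow (2 * e0 + 1)))
      rw [← hS.zz] at h2
      have h3 := (hp.mul h2).mul (ht.pow 8)
      rw [e, map_mul, hS.cj, zpow_mul, zpow_natCast, zpow_ofNat, pow_succ (t ^ 8)]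
      simp only [mul_assoc, inv_mul_cancel_left] at h3 ⊢
      refine h3.mono ?_
      rcases he with rfl | rfl <;> simp <;> nlinarith)
  have h1 := key.mul ((ht.pow 8).pow W).inv
  rw [mul_inv_cancel_right] at h1
  exact h1.mono (le_of_eq (by ring))

end Pool.Agent.P.MP_0b0f5a_al
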