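import Pool.Agent.P.MP_0b0f5a_al.Stage

/-!
The first tensorisation step of the lower bound.
-/

namespace Pool.Agent.P.MP_0b0f5a_al

open Equiv Finset

variable {V : Type} [NormedAddCommGroup V] [InnerProductSpace ℝ V] {π : Γ →* (V ≃ₗᵢ[ℝ] V)}
  {ω : ℕ → Fin 3}

lemma pow_cost {Y : Type} {t : Γ} {S : (Y → Γ) →* Γ} (hS : Sys t S) {D : Γ} {X c : ℕ} (W : ℕ)
    (ht : Len ω c t) (hX : ∀ g : Y → Γ, (∀ y, g y = 1 ∨ g y = D) → Len ω X (S g)) (G : ℕ) :
    ∀ j : Y → ℕ, (∀ y, j y ≤ G) →
      Len ω (G * (2 * X + 8 * W * c)) (S fun y => pp (2 * W) D ^ j y) := by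
  induction G with
  | zero =>
    intro j hj
    have : (fun y => pp (2 * W) D ^ j y) = 1 := by funext y; simp [Nat.le_zero.1 (hj y)]
    rw [this, map_one]; exact Len.one _
  | succ G ih =>
    intro j hj
    have e : (fun y => pp (2 * W) D ^ j y) = (fun y => pp (2 * W) D ^ (j y - 1)) *
        fun y => pp (2 * W) (if j y = 0 then 1 else D) := by
      funext y
      by_cases h : j y = 0
      · simp [h, pp]
      · simp only [h, if_false, Pi.mul_apply, ← pow_succ]
        congr 1; omega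
    have h1 := hX (fun y => if j y = 0 then 1 else D) fun y => by split_ifs <;> simp
    rw [e, map_mul, hS.pp, add_mul, one_mul]
    refine (ih _ fun y => by have := hj y; omega).mul
      (((h1.conj (ht.zpow (2 * (2 * W)))).mul h1).mono (le_of_eq ?_))
    rw [show (2 * (2 * (W : ℤ))).natAbs = 4 * W by omega]; ring

lemma win_conj {n J W : ℕ} (h : 4 * W * J = 2 ^ n) (D : Γ) {j x : ℕ} (hj : x + j < J)
    (a : Fin W → Γ) : sg (S2 h (win J W (x + j) a)) = pp (2 * W) (sig (genA, D)) ^ x *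
      sg (S2 h (win J W j a)) * (pp (2 * W) (sig (genA, D)) ^ x)⁻¹ := by
  rw [sg_apply, sg_apply, pp_conj, ← win_shift h hj]
  congr 3; ring

lemma stage1 {Y : Type} [Fintype Y] [DecidableEq Y] {t : Γ} {S : (Y → Γ) →* Γ} (hS : Sys t S)
    {n J W : ℕ} (h : 4 * W * J = 2 ^ n) {d D : Γ} (hd : d * d = 1) (hD : Pat n d D)
    {X c b G R : ℕ} (ht : Len ω c t)
    (hX : ∀ g : Y → Γ, (∀ y, g y = 1 ∨ g y = sig (genA, D)) → Len ω X (S g))
    (hG : 1 ≤ G) (hJ : J ≤ R * G) (hJY : J ≤ Fintype.card Y) (hR : R ^ 2 ≤ Fintype.card Y)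
    (hb : 2 * (G * (2 * X + 8 * W * c)) + W * (4 * X + 40 * c) ≤ b) (ψ : V) {δ : ℝ} (hδ : 0 < δ)
    (hL : ∀ g, Len ω b g → mv π ψ g ≤ δ) :
    ∃ Q : Finset Y, Fintype.card Y ≤ 2 * Q.card ∧ ∀ y ∈ Q,
      (∀ x ≤ R * G, mv π ψ (S (Pi.mulSingle y (pp (2 * W) (sig (genA, D)) ^ x))) ≤ 18 * δ) ∧
      ∀ g : Fin J × Fin W → Γ, (∀ q, g q = 1 ∨ g q = d) →
        mv π ψ (S (Pi.mulSingle y (sg (S2 h g)))) ≤ 18 * δ := by
  have hJ0 : 0 < J := Nat.pos_of_ne_zero (by rintro rfl; exact absurd h.symm (by positivity))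
  have : Nonempty (Fin J) := ⟨⟨0, hJ0⟩⟩
  set p := pp (2 * W) (sig (genA, D)) with hp
  set Zs : ℕ → ((Fin W → two d hd) →* Γ) := fun j => sg.comp ((S2 h).comp ((win J W j).comp
    (MonoidHom.compLeft (two d hd).subtype (Fin W)))) with hZs
  have hZ : ∀ x j a, x + j < J → Zs (x + j) a = p ^ x * Zs j a * (p ^ x)⁻¹ :=
    fun x j a hj => win_conj h _ hj _
  have hpc := pow_cost hS W ht hX G
  obtain ⟨φ, h1, h2⟩ := tensor (π := π) S
    (fun _ (τ : Bool × (Fin J × (Fin W → two d hd))) =>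
      if τ.1 then p ^ G else Zs (τ.2.1 % G) τ.2.2) ψ (δ := δ) (by
    intro e τ
    have e1 : (fun y => if e y then (if (τ y).1 then p ^ G else Zs ((τ y).2.1 % G) (τ y).2.2)
        else 1) = (fun y => p ^ (if e y then (if (τ y).1 then G else (τ y).2.1 % G) else 0)) *
        (fun y => Zs 0 (if e y then (if (τ y).1 then 1 else (τ y).2.2) else 1)) *
        (fun y => p ^ (if e y then (if (τ y).1 then 0 else (τ y).2.1 % G) else 0))⁻¹ := by
      funext y
      have := hZ ((τ y).2.1 % G) 0 (τ y).2.2 ((Nat.mod_le _ _).trans_lt (τ y).2.1.2)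
      cases h3 : e y <;> cases h4 : (τ y).1 <;> simp [h3, h4, ← this]
    have hm : ∀ y, ((τ y).2.1 : ℕ) % G ≤ G := fun y => (Nat.mod_lt _ hG).le
    rw [e1, map_mul, map_mul, map_inv]
    refine hL _ ((((hpc _ fun y => ?_).mul (window_cost hS h hD ht hX _ fun y q => ?_)).mul
      (hpc _ fun y => ?_).inv).mono (by omega))
    · split_ifs <;> simp [hm]
    · exact Subtype.property (p := (· ∈ two d hd)) _
    · split_ifs <;> simp [hm])
  have hc0 : (0 : ℝ) < Fintype.card (Fin W → two d hd) := by exact_mod_cast Fintype.card_pos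
  have hJ0' : (0 : ℝ) < J := by exact_mod_cast hJ0
  refine ⟨_, markov _ (fun y => sum_nonneg fun _ _ => sq_nonneg _) (by positivity) h2,
    fun y hy => ?_⟩
  have h3 := (mem_filter.1 hy).2
  set β : Γ →* Γ := S.comp (MonoidHom.mulSingle (fun _ => Γ) y) with hβ
  have hβ' : ∀ g, S (Pi.mulSingle y g) = β g := fun g => rfl
  simp only [hβ', Fintype.sum_prod_type, Fintype.sum_bool, if_true, Bool.false_eq_true, if_false,
    sum_const, card_univ, Fintype.card_prod, Fintype.card_bool, Fintype.card_fin, nsmul_eq_mul,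
    Nat.cast_mul, Nat.cast_ofNat] at h3 ⊢
  set N : ℝ := (Fintype.card Y : ℝ) with hN
  set cA : ℝ := (Fintype.card (Fin W → two d hd) : ℝ) with hcA
  set e1 := mv π φ (β (p ^ G)) with he1
  set s2 := ∑ j : Fin J, ∑ a, mv π φ (β (Zs (j % G) a)) ^ 2 with hs2
  have hs2' : 0 ≤ s2 := sum_nonneg fun _ _ => sum_nonneg fun _ _ => sq_nonneg _
  have he0 : 0 ≤ e1 := mv_nonneg _ _
  have hN0 : 0 ≤ N := Nat.cast_nonneg _
  have h4 : N * e1 ^ 2 ≤ 16 * δ ^ 2 := by
    refine le_of_mul_le_mul_left ?_ (mul_pos hJ0' hc0)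
    nlinarith [mul_nonneg hN0 hs2']
  have h5 : R * e1 ≤ 4 * δ := by
    refine abs_le_of_sq_le_sq' ?_ (by positivity) |>.2
    have : (R : ℝ) ^ 2 ≤ N := by rw [hN]; exact_mod_cast hR
    nlinarith [sq_nonneg e1]
  have h6 : cA⁻¹ * s2 ≤ (4 * δ) ^ 2 := by
    have h7 : (J : ℝ) ≤ N := by rw [hN]; exact_mod_cast hJY
    rw [inv_mul_le_iff₀ hc0]
    refine le_of_mul_le_mul_left ?_ hJ0'
    have h8 : 0 ≤ N * (J * (cA * e1 ^ 2)) := by positivity
    nlinarith [mul_le_mul_of_nonneg_right h7 hs2']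
  have h7 : ∀ x ≤ R * G, ((x / G : ℕ) : ℝ) * e1 ≤ 4 * δ := by
    intro x hx
    have : ((x / G : ℕ) : ℝ) ≤ R := by
      exact_mod_cast Nat.div_le_of_le_mul (by rwa [mul_comm] at hx)
    exact (mul_le_mul_of_nonneg_right this he0).trans h5
  refine ⟨fun x hx => ?_, fun g hg => ?_⟩
  · have h8 : mv π ψ (β (p ^ (x % G))) ≤ δ := by
      have := hpc (Pi.single y (x % G)) fun y' => by
        by_cases h : y' = y <;> simp [h, (Nat.mod_lt x hG).le]
      refine hL _ ?_
      convert this.mono (c' := b) (by omega) using 1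
      rw [← hβ']; congr 1
      funext y'
      by_cases h : y' = y <;> simp [h, hp]
    have h9 := mv_pow (π := π) φ (β (p ^ G)) (x / G)
    have h10 := mv_le_of_near (π := π) ψ φ (β (p ^ G) ^ (x / G))
    have h11 := mv_mul (π := π) ψ (β (p ^ G) ^ (x / G)) (β (p ^ (x % G)))
    rw [← map_pow, ← map_mul, ← pow_mul, ← pow_add, Nat.div_add_mod] at h11
    rw [← map_pow, ← pow_mul] at h9 h10
    linarith [h7 x hx]
  · obtain ⟨x, y', z, k1, k2, k3, k4⟩ := quad (π := π) J (fun j => β.comp (Zs j)) (by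
      intro i j a b _ _ hij
      refine Commute.map (Commute.map (Commute.map ?_ (S2 h)) sg) β
      funext q
      by_cases h8 : (q.1 : ℕ) = i
      · have : (q.1 : ℕ) ≠ j := fun h9 => hij (h8.symm.trans h9)
        simp [win, this]
      · simp [win, h8]) fun j => π (β (p ^ (G * (j / G)))) φ
    have k5 : ‖x‖ ≤ 4 * δ := by
      refine abs_le_of_sq_le_sq' (k3.trans (le_trans (le_of_eq ?_) h6)) (by positivity) |>.2
      rw [← mul_sum, hs2, ← sum_range fun j => ∑ a, mv π φ (β (Zs (j % G) a)) ^ 2]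
      refine congrArg (cA⁻¹ * ·) (sum_congr rfl fun j hj => sum_congr rfl fun a _ => ?_)
      have := hZ (G * (j / G)) (j % G) a (by rw [Nat.div_add_mod]; exact mem_range.1 hj)
      rw [Nat.div_add_mod] at this
      rw [MonoidHom.comp_apply β, this, map_mul, map_mul, map_inv, mv_act]
    have k6 : ‖y'‖ ≤ 4 * δ := by
      refine k4.trans (le_trans ?_ (h7 J hJ))
      have : ∀ m : ℕ, ∑ j ∈ range m, ‖π (β (p ^ (G * ((j + 1) / G)))) φ -
          π (β (p ^ (G * (j / G)))) φ‖ ≤ ((m / G : ℕ) : ℝ) * e1 := by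
        intro m
        induction m with
        | zero => simp
        | succ m ih =>
          rw [sum_range_succ, Nat.succ_div]
          split_ifs
          · rw [mul_add, mul_one, pow_add, map_mul, pi_mul, ← map_sub,
              LinearIsometryEquiv.norm_map]
            push_cast
            have : ‖π (β (p ^ G)) φ - φ‖ = e1 := rfl
            linarith
          · simpa using ih
      exact this J
    have k7 : π (β (sg (S2 h g))) z = z := by
      refine key_induction g (fun q => q.1) J (fun q => q.1.2)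
        (fun _ g => π (β (sg (S2 h g))) z = z) (by simp) fun j hj g' hg' => ?_
      have := k2 j hj fun q => ⟨g (⟨j, hj⟩, q), hg _⟩
      rw [map_mul, map_mul, map_mul, pi_mul]
      have e : (fun q : Fin J × Fin W => if (q.1 : ℕ) = j then g q else 1) =
          win J W j fun q => g (⟨j, hj⟩, q) := by
        funext q
        by_cases h8 : (q.1 : ℕ) = j
        · subst h8; simp [win]
        · simp [win, h8]
      rw [e]
      exact (congrArg _ this).trans hg'
    have k8 := mv_le_of_near (π := π) φ z (β (sg (S2 h g)))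
    have k9 := mv_le_of_near (π := π) ψ φ (β (sg (S2 h g)))
    have k10 : ‖z - φ‖ ≤ 8 * δ := by
      simp only [Nat.zero_div, mul_zero, pow_zero, map_one, LinearIsometryEquiv.coe_one, id] at k1
      rw [k1, show z - (x + y' + z) = -(x + y') by abel, norm_neg]
      linarith [norm_add_le x y']
    have k11 : mv π z (β (sg (S2 h g))) = 0 := by rw [mv, k7, sub_self, norm_zero]
    linarith

end Pool.Agent.P.MP_0b0f5a_al
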