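import Pool.Agent.P.MP_0b0f5a_al.Defs

/-!
The odometer `ρ = a b`, copies of the tree at the vertices of a level, and gluing.
-/

namespace Pool.Agent.P.MP_0b0f5a_al

open Equiv

abbrev Γ := Equiv.Perm (List Bool)

def pairFun (f g : List Bool → List Bool) : List Bool → List Bool
  | [] => []
  | false :: w => false :: f w
  | true :: w => true :: g w

/-- The element acting as `p.1` below 0 and as `p.2` below 1. -/
def pair : Γ × Γ →* Γ where
  toFun p :=
    { toFun := pairFun p.1 p.2
      invFun := pairFun p.1.symm p.2.symm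
      left_inv := by rintro (_ | ⟨_ | _, w⟩) <;> simp [pairFun]
      right_inv := by rintro (_ | ⟨_ | _, w⟩) <;> simp [pairFun] }
  map_one' := by ext1 w; rcases w with (_ | ⟨_ | _, w⟩) <;> simp [pairFun]
  map_mul' p q := by ext1 w; rcases w with (_ | ⟨_ | _, w⟩) <;> simp [pairFun]

@[simp] lemma pair_nil (p : Γ × Γ) : pair p [] = [] := rfl
@[simp] lemma pair_false (p : Γ × Γ) (w) : pair p (false :: w) = false :: p.1 w := rfl
@[simp] lemma pair_true (p : Γ × Γ) (w) : pair p (true :: w) = true :: p.2 w := rfl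
@[simp] lemma genA_nil : genA [] = [] := rfl
@[simp] lemma genA_cons (x w) : genA (x :: w) = (!x) :: w := rfl

lemma pair_mul (f g f' g' : Γ) : pair (f, g) * pair (f', g') = pair (f * f', g * g') :=
  (map_mul pair _ _).symm

lemma pair_inj : Function.Injective pair := by
  rintro ⟨f, g⟩ ⟨f', g'⟩ h
  ext1
  · ext1 w; simpa using congrArg (· (false :: w)) h
  · ext1 w; simpa using congrArg (· (true :: w)) h

lemma pair_disj {f g f' g' : Γ} (h : Perm.Disjoint f f') (h' : Perm.Disjoint g g') :
    Perm.Disjoint (pair (f, g)) (pair (f', g')) := by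
  rintro (_ | ⟨_ | _, w⟩)
  · simp
  · simpa using h w
  · simpa using h' w

lemma genA_sq : genA * genA = 1 := by ext1 w; exact aFun_invol w

lemma genS_sq (k ω) : genS k ω * genS k ω = 1 := by ext1 w; exact sFun_invol k ω w

lemma genA_inv : genA⁻¹ = genA := inv_eq_of_mul_eq_one_right genA_sq

lemma genS_inv (k ω) : (genS k ω)⁻¹ = genS k ω := inv_eq_of_mul_eq_one_right (genS_sq k ω)

lemma genA_ne_one : genA ≠ 1 := fun h => by simpa using congrArg (· [true]) h

lemma genS_eq (k ω) :
    genS k ω = pair (if ω 0 = k then 1 else genA, genS k fun i => ω (i + 1)) := by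
  ext1 w
  rcases w with (_ | ⟨_ | _, w⟩)
  · rfl
  · by_cases h : ω 0 = k
    · simp [genS, sFun, h]
    · simp only [genS, Function.Involutive.coe_toPerm, sFun, h, if_false, pair_false]; rfl
  · rfl

lemma genA_conj (f g : Γ) : genA * pair (f, g) * genA = pair (g, f) := by
  ext1 w; rcases w with (_ | ⟨_ | _, w⟩) <;> simp

/-- The common value of `b ω` for the sequences without the symbol 2. -/
def genB : Γ := genS 2 fun _ => 0

lemma genB_eq : genB = pair (genA, genB) := by
  conv_lhs => rw [genB, genS_eq]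
  rfl

lemma genB_sq : genB * genB = 1 := genS_sq _ _

lemma genB_inv : genB⁻¹ = genB := genS_inv _ _

lemma genS_two {ω : ℕ → Fin 3} (h : ∀ i, ω i ≠ 2) : genS 2 ω = genB := by
  ext1 w
  induction w generalizing ω with
  | nil => rfl
  | cons x w ih =>
    rw [genS_eq, genB_eq, if_neg (h 0)]
    cases x
    · rfl
    · simp only [pair_true]; rw [ih fun i => h (i + 1)]

lemma genS_one (ω : ℕ → Fin 3) : genS 1 ω = genS 2 ω * genS 0 ω := by
  ext1 w
  induction w generalizing ω with
  | nil => rfl
  | cons x w ih =>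
    rw [genS_eq 1, genS_eq 2, genS_eq 0, pair_mul]
    cases x
    · simp only [pair_false]
      generalize ω 0 = i
      fin_cases i <;> simp [genA_sq]
    · simp only [pair_true]; rw [ih]

lemma genS_comm (ω : ℕ → Fin 3) : Commute (genS 2 ω) (genS 0 ω) := by
  have h := genS_inv 1 ω
  rw [genS_one, mul_inv_rev, genS_inv, genS_inv] at h
  exact h.symm

/-- The odometer. -/
def rho : Γ := genA * genB

lemma rho_inv : rho⁻¹ = genB * genA := by rw [rho, mul_inv_rev, genA_inv, genB_inv]

lemma rho_sq : rho ^ 2 = pair (rho⁻¹, rho) := by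
  rw [rho_inv, rho, ← pair_mul, ← genA_conj genA genB, ← genB_eq, sq]; simp only [mul_assoc]

lemma rho_two_zpow (t : ℤ) : rho ^ (2 * t) = pair (rho⁻¹ ^ t, rho ^ t) := by
  rw [zpow_mul, zpow_ofNat, rho_sq, ← map_zpow]; rfl

lemma genA_rho : genA * rho * genA = rho⁻¹ := by
  rw [rho_inv, rho, ← mul_assoc, genA_sq, one_mul]

/-- The copy of `g` at the vertex `1^n`. -/
def En : ℕ → (Γ →* Γ)
  | 0 => MonoidHom.id _
  | n + 1 => (pair.comp (MonoidHom.inr _ _)).comp (En n)

lemma En_succ (n g) : En (n + 1) g = pair (1, En n g) := rfl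

lemma En_add (n m g) : En (n + m) g = En n (En m g) := by
  induction n with
  | zero => simp [En]
  | succ n ih => rw [Nat.add_right_comm, En_succ, En_succ, ih]

/-- The copy of `g` at the vertex `ρ^i 1^n`. -/
def iota (n : ℕ) (i : ℤ) : Γ →* Γ := (MulAut.conj (rho ^ i)).toMonoidHom.comp (En n)

lemma iota_apply (n i g) : iota n i g = rho ^ i * En n g * (rho ^ i)⁻¹ := rfl

lemma iota_zero (n g) : iota n 0 g = En n g := by simp [iota_apply]

lemma iota_conj (n i j g) : rho ^ j * iota n i g * (rho ^ j)⁻¹ = iota n (j + i) g := by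
  simp only [iota_apply, zpow_add]; group

lemma iota_even (n t g) : iota (n + 1) (2 * t) g = pair (1, iota n t g) := by
  rw [iota_apply, rho_two_zpow, En_succ, ← map_inv, ← map_mul, ← map_mul, iota_apply]
  simp

lemma iota_odd (n t g) : ∃ x, iota (n + 1) (2 * t - 1) g = pair (x, 1) := by
  have h : rho⁻¹ * pair (1, En n g) * rho = pair (genA * En n g * genA, 1) := by
    rw [rho_inv, rho, show genB * genA * pair (1, En n g) * (genA * genB) =
      genB * (genA * pair (1, En n g) * genA) * genB by simp only [mul_assoc], genA_conj]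
    conv_lhs => rw [genB_eq]
    rw [pair_mul, pair_mul, mul_one, genB_sq]
  refine ⟨rho⁻¹ ^ t * (genA * En n g * genA) * (rho⁻¹ ^ t)⁻¹, ?_⟩
  rw [iota_apply, En_succ, zpow_sub_one, mul_inv_rev, inv_inv,
    show rho ^ (2 * t) * rho⁻¹ * pair (1, En n g) * (rho * (rho ^ (2 * t))⁻¹) =
      rho ^ (2 * t) * (rho⁻¹ * pair (1, En n g) * rho) * (rho ^ (2 * t))⁻¹ by
        simp only [mul_assoc], h, rho_two_zpow, ← map_inv, ← map_mul, ← map_mul]
  simp

lemma iota_pow (n : ℕ) (j : ℤ) (g) :
    iota n (2 ^ n * j) g = En n (rho ^ j * g * (rho ^ j)⁻¹) := by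
  induction n with
  | zero => simp [iota_apply, En]
  | succ n ih => rw [pow_succ', mul_assoc, iota_even, ih, En_succ]

lemma iota_add (n : ℕ) (i j : ℤ) (g) :
    iota n (i + 2 ^ n * j) g = iota n i (rho ^ j * g * (rho ^ j)⁻¹) := by
  rw [← iota_conj, iota_pow, iota_apply]

lemma iota_iota (n m : ℕ) (i j : ℤ) (g) :
    iota n i (iota m j g) = iota (n + m) (i + 2 ^ n * j) g := by
  rw [iota_apply m, ← iota_add, iota_apply, iota_apply, En_add]

lemma En_disj_of {g g' : Γ} (h : Perm.Disjoint g g') (n) : Perm.Disjoint (En n g) (En n g') := by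
  induction n with
  | zero => exact h
  | succ n ih => exact pair_disj (Perm.disjoint_one_left _) ih

lemma iota_disj_of {g g' : Γ} (h : Perm.Disjoint g g') (n i) :
    Perm.Disjoint (iota n i g) (iota n i g') := (En_disj_of h n).conj _

lemma En_inj (n) : Function.Injective (En n) := by
  induction n with
  | zero => exact fun _ _ h => h
  | succ n ih => exact fun g g' h => ih (congrArg Prod.snd (pair_inj h))

lemma iota_inj (n i) : Function.Injective (iota n i) :=
  (MulAut.conj (rho ^ i)).injective.comp (En_inj n)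

lemma iota_disj_En {n : ℕ} {i : ℤ} (h : ¬ (2 : ℤ) ^ n ∣ i) (g g' : Γ) :
    Perm.Disjoint (iota n i g) (En n g') := by
  induction n generalizing i with
  | zero => simp at h
  | succ n ih =>
    rw [En_succ]
    rcases Int.even_or_odd' i with ⟨t, rfl | rfl⟩
    · rw [iota_even]
      refine pair_disj (Perm.disjoint_one_left _) (ih fun h' => h ?_)
      rw [pow_succ']; exact mul_dvd_mul_left _ h'
    · obtain ⟨x, hx⟩ := iota_odd n (t + 1) g
      rw [show 2 * t + 1 = 2 * (t + 1) - 1 by ring, hx]
      exact pair_disj (Perm.disjoint_one_right _) (Perm.disjoint_one_left _)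

lemma iota_disj {n : ℕ} {i j : ℤ} (h : ¬ (2 : ℤ) ^ n ∣ i - j) (g g' : Γ) :
    Perm.Disjoint (iota n i g) (iota n j g') := by
  have := (iota_disj_En h g g').conj (rho ^ j)
  rwa [iota_conj, ← iota_apply, add_sub_cancel] at this

/-- The two halves of the tree, in the frames of the odometer. -/
def sig : Γ × Γ →* Γ := pair.comp (((MulAut.conj genA).toMonoidHom).prodMap (MonoidHom.id _))

lemma sig_apply (f g) : sig (f, g) = pair (genA * f * genA, g) := by
  simp [sig, genA_inv]

lemma sig_mul (f g f' g' : Γ) : sig (f, g) * sig (f', g') = sig (f * f', g * g') :=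
  (map_mul sig _ _).symm

lemma sig_rho : sig (rho, rho) = rho ^ 2 := by rw [sig_apply, genA_rho, rho_sq]

lemma sig_conj (t : ℤ) (f g) : rho ^ (2 * t) * sig (f, g) * (rho ^ (2 * t))⁻¹ =
    sig (rho ^ t * f * (rho ^ t)⁻¹, rho ^ t * g * (rho ^ t)⁻¹) := by
  rw [zpow_mul, zpow_ofNat, ← sig_rho, ← map_zpow, ← map_inv, ← map_mul, ← map_mul]; rfl

lemma sig_swap (f g) : rho⁻¹ * sig (f, g) * rho = sig (g, rho⁻¹ * f * rho) := by
  rw [sig_apply, sig_apply, rho_inv, rho,
    show genB * genA * pair (genA * f * genA, g) * (genA * genB) =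
      genB * (genA * pair (genA * f * genA, g) * genA) * genB by simp only [mul_assoc], genA_conj]
  conv_lhs => rw [genB_eq]
  rw [pair_mul, pair_mul]; simp only [mul_assoc]

lemma sig_disj {f f' : Γ} (h : Perm.Disjoint f f') :
    Perm.Disjoint (sig (f, 1)) (sig (f', 1)) := by
  rw [sig_apply, sig_apply]
  refine pair_disj ?_ (Perm.disjoint_one_left _)
  have := h.conj genA
  rwa [genA_inv] at this

lemma sig_inj : Function.Injective sig := by
  refine pair_inj.comp ?_
  exact Function.Injective.prodMap (MulAut.conj genA).injective Function.injective_id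

/-- A system of independent copies of the tree, with an element `t` acting on each as `ρ`. -/
structure Sys {Y : Type} (t : Γ) (S : (Y → Γ) →* Γ) : Prop where
  conj : ∀ g, t * S g * t⁻¹ = S fun y => rho * g y * rho⁻¹
  disj : ∀ g g', (∀ y, Perm.Disjoint (g y) (g' y)) → Perm.Disjoint (S g) (S g')
  inj : Function.Injective S

lemma Sys.conj_zpow {Y : Type} {t : Γ} {S : (Y → Γ) →* Γ} (h : Sys t S) (i : ℤ) (g : Y → Γ) :
    t ^ i * S g * (t ^ i)⁻¹ = S fun y => rho ^ i * g y * (rho ^ i)⁻¹ := by
  have key : ∀ (n : ℕ) (g : Y → Γ), t ^ n * S g * (t ^ n)⁻¹ = S fun y => rho ^ n * g y * (rho ^ n)⁻¹ := by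
    intro n
    induction n with
    | zero => simp
    | succ n ih =>
      intro g
      have := h.conj fun y => rho ^ n * g y * (rho ^ n)⁻¹
      rw [← ih] at this
      simp only [pow_succ', mul_inv_rev, mul_assoc] at this ⊢
      exact this
  rcases Int.eq_nat_or_neg i with ⟨n, rfl | rfl⟩
  · simpa using key n g
  · have := key n fun y => (rho ^ n)⁻¹ * g y * rho ^ n
    simp only [mul_assoc, mul_inv_cancel_left, mul_inv_cancel, mul_one] at this
    simp only [zpow_neg, zpow_natCast, inv_inv, mul_assoc]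
    rw [← this]; simp only [mul_assoc, inv_mul_cancel_left, inv_mul_cancel, mul_one]

/-- Positions that are distinct modulo `2^n`. -/
def Sep {Z : Type} (n : ℕ) (x : Z → ℤ) : Prop := ∀ z z', (2 : ℤ) ^ n ∣ x z - x z' → z = z'

/-- Gluing copies of the tree at distinct vertices of level `n`. -/
def glue {Z : Type} [Fintype Z] (n : ℕ) (x : Z → ℤ) (h : Sep n x) : (Z → Γ) →* Γ :=
  MonoidHom.noncommPiCoprod (N := fun _ : Z => Γ) (fun z => iota n (x z))
    fun z z' hz (g g' : Γ) => (iota_disj (fun h' => hz (h z z' h')) g g').commute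

lemma glue_single {Z : Type} [Fintype Z] [DecidableEq Z] (n : ℕ) (x : Z → ℤ) (h : Sep n x) (z : Z) (g : Γ) :
    glue n x h (Pi.mulSingle z g) = iota n (x z) g :=
  MonoidHom.noncommPiCoprod_mulSingle (N := fun _ : Z => Γ) (fun z => iota n (x z)) z g

lemma glue_sys {Z : Type} [Fintype Z] (n : ℕ) (x : Z → ℤ) (h : Sep n x) :
    Sys (rho ^ 2 ^ n) (glue n x h) := by
  classical
  have hd : ∀ g g' : Z → Γ, (∀ y, Perm.Disjoint (g y) (g' y)) →
      Perm.Disjoint (glue n x h g) (glue n x h g') := by
    intro g g' hg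
    unfold glue
    rw [MonoidHom.noncommPiCoprod_apply, MonoidHom.noncommPiCoprod_apply]
    refine Perm.disjoint_noncommProd_right _ fun z' _ => ?_
    refine (Perm.disjoint_noncommProd_right _ fun z _ => ?_).symm
    by_cases hz : z = z'
    · subst hz; exact iota_disj_of (hg z).symm _ _
    · exact iota_disj (fun h' => hz (h _ _ h').symm) _ _
  refine ⟨fun g => ?_, hd, ?_⟩
  · have : (MulAut.conj (rho ^ 2 ^ n)).toMonoidHom.comp (glue n x h) = (glue n x h).comp
        (MonoidHom.compLeft (MulAut.conj rho).toMonoidHom Z) := by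
      refine MonoidHom.pi_ext (M := fun _ : Z => Γ) fun z g => ?_
      have e : MonoidHom.compLeft (MulAut.conj rho).toMonoidHom Z (Pi.mulSingle z g) =
          Pi.mulSingle z (rho * g * rho⁻¹) := by
        funext z'
        by_cases hz : z' = z
        · subst hz; simp
        · simp [hz]
      rw [MonoidHom.comp_apply, MonoidHom.comp_apply, e, glue_single, glue_single]
      have h1 := iota_conj n (x z) (2 ^ n) g
      have h2 := iota_add n (x z) 1 g
      rw [zpow_one, mul_one, add_comm] at h2
      rw [← h2, ← h1, show rho ^ ((2 : ℤ) ^ n) = rho ^ (2 ^ n : ℕ) by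
        rw [← zpow_natCast]; push_cast; rfl]
      rfl
    exact DFunLike.congr_fun this g
  · refine (injective_iff_map_eq_one _).2 fun g hg => funext fun z => ?_
    have e : g = Pi.mulSingle z (g z) * Function.update g z 1 := by
      funext z'
      by_cases hz : z' = z
      · subst hz; simp
      · simp [hz]
    rw [e, map_mul, Perm.Disjoint.mul_eq_one_iff, glue_single] at hg
    · exact (injective_iff_map_eq_one _).1 (iota_inj _ _) _ hg.1
    · refine hd _ _ fun z' => ?_
      by_cases hz : z' = z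
      · subst hz; simp [Perm.disjoint_one_right]
      · simp [hz, Perm.disjoint_one_left]

end Pool.Agent.P.MP_0b0f5a_al
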