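import Pool.Agent.P.MP_0b0f5a_al.Coarea

/-!
The upper bound: independent particles on the unfolded Schreier line.
-/

namespace Pool.Agent.P.MP_0b0f5a_al

open Equiv Finset

def al (j : ℤ) : ℤ := if j % 2 = 0 then j + 1 else j - 1

def be (j : ℤ) : ℤ := if j % 2 = 0 then j - 1 else j + 1

/-- The position on the unfolded line. -/
def Pp : List Bool → ℤ → ℤ
  | [], j => j
  | x :: v, j => 2 * Pp v j + if x then Pp v j % 2 else 1 - Pp v j % 2

lemma Pp_bounds (v : List Bool) (j : ℤ) :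
    2 ^ v.length * j ≤ Pp v j ∧ Pp v j < 2 ^ v.length * (j + 1) := by
  induction v with
  | nil => simp [Pp]
  | cons x v ih =>
    rw [List.length_cons, pow_succ', mul_assoc, mul_assoc, Pp]
    split_ifs <;> omega

/-- The elements of the infinite dihedral group. -/
def hh (j : ℤ) : Γ := (if j % 2 = 0 then 1 else genA) * rho ^ (-(j / 2))

lemma A_hh (j : ℤ) : genA * hh j = hh (al j) := by
  unfold hh al
  split_ifs with h1 h2 h2
  · omega
  · rw [show (j + 1) / 2 = j / 2 by omega, one_mul]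
  · rw [show (j - 1) / 2 = j / 2 by omega, ← mul_assoc, genA_sq]
  · omega

lemma B_hh (j : ℤ) : genB * hh j = hh (be j) := by
  unfold hh be
  split_ifs with h1 h2 h2
  · omega
  · rw [show -((j - 1) / 2) = 1 + -(j / 2) by omega, zpow_add, zpow_one, one_mul, ← mul_assoc]
    rw [rho, ← mul_assoc, genA_sq, one_mul]
  · rw [show -((j + 1) / 2) = -1 + -(j / 2) by omega, zpow_add, zpow_neg_one, one_mul, rho_inv,
      mul_assoc]
  · omega

lemma lamp_eq {N : ℕ} {δ : Γ} (hc : Commute genB (En N δ)) (j : ℤ) :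
    (hh j)⁻¹ * En N δ * hh j = iota N ((j + 1) / 2) δ := by
  unfold hh
  split_ifs with h
  · rw [show (j + 1) / 2 = j / 2 by omega, iota_apply]; simp
  · have : genA * En N δ * genA = rho * En N δ * rho⁻¹ := by
      rw [rho_inv, rho, mul_assoc genA genB, hc.eq]
      simp only [mul_assoc]
      rw [← mul_assoc genB genB, genB_sq, one_mul]
    calc _ = rho ^ (j / 2) * (genA * En N δ * genA) * (rho ^ (j / 2))⁻¹ := by
          rw [mul_inv_rev, genA_inv, zpow_neg, inv_inv]; simp only [mul_assoc]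
      _ = _ := by
          rw [this, show (j + 1) / 2 = j / 2 + 1 by omega, iota_apply, zpow_add, zpow_one,
            mul_inv_rev]
          simp only [mul_assoc]

/-- A section acts on the dihedral coordinate by `τ`, up to a lamp. -/
def Good (D κ : Γ) (τ : ℤ → ℤ) : Prop := Function.Involutive τ ∧
  ∀ j, κ * hh j = hh (τ j) ∨ κ * hh j = hh (τ j) * ((hh j)⁻¹ * D * hh j)

lemma good_one (D : Γ) : Good D 1 id := ⟨fun _ => rfl, fun _ => Or.inl (one_mul _)⟩

lemma be_invol : Function.Involutive be := fun j => by unfold be; split_ifs <;> omega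

lemma local_A (D : Γ) (v : List Bool) : ∃ κ τ, Good D κ τ ∧
    (∀ u, genA (v ++ u) = genA v ++ κ u) ∧ ∀ j, Pp (genA v) (τ j) = al (Pp v j) := by
  rcases v with _ | ⟨x, v⟩
  · exact ⟨genA, al, ⟨fun j => by unfold al; split_ifs <;> omega, fun j => Or.inl (A_hh j)⟩,
      fun _ => rfl, fun _ => rfl⟩
  · refine ⟨1, id, good_one D, fun _ => rfl, fun j => ?_⟩
    cases x <;> simp only [genA_cons, Pp, al, id, Bool.not_false, Bool.not_true, if_true,
      Bool.false_eq_true, if_false] <;> split_ifs <;> omega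

lemma local_S (k : Fin 3) (v : List Bool) : ∀ ω : ℕ → Fin 3, (∀ i, ω i ≠ 2) →
    ∃ κ τ, Good (genS 0 fun i => ω (i + v.length)) κ τ ∧
      (∀ u, genS k ω (v ++ u) = genS k ω v ++ κ u) ∧
      ∀ j, Pp (genS k ω v) (τ j) = be (Pp v j) ∨ Pp (genS k ω v) (τ j) = Pp v j := by
  induction v with
  | nil =>
    intro ω hω
    refine ⟨genS k ω, if k = 0 then id else be, ?_, fun _ => rfl, fun j => ?_⟩
    · fin_cases k
      · exact ⟨fun _ => rfl, fun j => Or.inr (by simp [mul_assoc])⟩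
      · refine ⟨be_invol, fun j => Or.inr ?_⟩
        simp [genS_one, genS_two hω, ← B_hh, mul_assoc]
      · refine ⟨be_invol, fun j => Or.inl ?_⟩
        simp [genS_two hω, ← B_hh]
    · change _ = be j ∨ _ = j
      change (if k = 0 then id else be) j = _ ∨ (if k = 0 then id else be) j = _
      split_ifs <;> simp
  | cons x v ih =>
    intro ω hω
    rw [genS_eq k]
    cases x
    · by_cases h : ω 0 = k
      · exact ⟨1, id, good_one _, fun u => by simp [h], fun j => Or.inr (by simp [h])⟩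
      · obtain ⟨κ, τ, h1, h2, h3⟩ := local_A (genS 0 fun i => ω (i + (false :: v).length)) v
        refine ⟨κ, τ, h1, fun u => by simp [h, h2], fun j => Or.inl ?_⟩
        simp only [h, if_false, pair_false, Pp, h3, Bool.false_eq_true, al, be]
        split_ifs <;> omega
    · obtain ⟨κ, τ, h1, h2, h3⟩ := ih (fun i => ω (i + 1)) fun i => hω _
      refine ⟨κ, τ, h1, fun u => by simp [h2], fun j => ?_⟩
      rcases h3 j with h4 | h4
      · left
        simp only [pair_true, Pp, h4, if_true, be]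
        split_ifs <;> omega
      · right
        simp only [pair_true, Pp, h4]

variable {ω : ℕ → Fin 3}

lemma local_gen (hω : ∀ i, ω i ≠ 2) {s : Γ} (hs : s ∈ gens ω) (v : List Bool) :
    ∃ κ τ, Good (genS 0 fun i => ω (i + v.length)) κ τ ∧ (∀ u, s (v ++ u) = s v ++ κ u) ∧
      ∀ j, |Pp (s v) (τ j) - Pp v j| ≤ 1 := by
  have key : ∀ k, ∃ κ τ, Good (genS 0 fun i => ω (i + v.length)) κ τ ∧
      (∀ u, genS k ω (v ++ u) = genS k ω v ++ κ u) ∧
      ∀ j, |Pp (genS k ω v) (τ j) - Pp v j| ≤ 1 := by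
    intro k
    obtain ⟨κ, τ, h1, h2, h3⟩ := local_S k v ω hω
    refine ⟨κ, τ, h1, h2, fun j => ?_⟩
    rcases h3 j with h | h <;> rw [h]
    · unfold be; split_ifs <;> simp
    · simp
  rcases hs with rfl | rfl | rfl | rfl
  · obtain ⟨κ, τ, h1, h2, h3⟩ := local_A (genS 0 fun i => ω (i + v.length)) v
    refine ⟨κ, τ, h1, h2, fun j => ?_⟩
    rw [h3]; unfold al; split_ifs <;> simp
  all_goals exact key _

lemma length_A (v : List Bool) : (genA v).length = v.length := by cases v <;> simp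

lemma length_S (k : Fin 3) (v : List Bool) : ∀ ω, (genS k ω v).length = v.length := by
  induction v with
  | nil => intro ω; rfl
  | cons x v ih =>
    intro ω
    rw [genS_eq]
    cases x
    · by_cases h : ω 0 = k <;> simp [h, length_A]
    · simp [ih]

lemma length_gen {s : Γ} (hs : s ∈ gens ω) (v : List Bool) : (s v).length = v.length := by
  rcases hs with rfl | rfl | rfl | rfl
  exacts [length_A v, length_S _ v _, length_S _ v _, length_S _ v _]

lemma grig_prop (hω : ∀ i, ω i ≠ 2) {x : Γ} (hx : x ∈ grig ω) :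
    (∀ u, (x u).length = u.length) ∧ ∀ u v, ∃ v', x (u ++ v) = x u ++ v' := by
  have step : ∀ s ∈ gens ω, ∀ y : Γ,
      ((∀ u, (y u).length = u.length) ∧ ∀ u v, ∃ v', y (u ++ v) = y u ++ v') →
      (∀ u, ((s * y) u).length = u.length) ∧ ∀ u v, ∃ v', (s * y) (u ++ v) = (s * y) u ++ v' := by
    intro s hs y hy
    refine ⟨fun u => by rw [Perm.mul_apply, length_gen hs, hy.1], fun u v => ?_⟩
    obtain ⟨v', h⟩ := hy.2 u v
    obtain ⟨κ, -, -, h2, -⟩ := local_gen hω hs (y u)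
    exact ⟨κ v', by rw [Perm.mul_apply, h, h2, Perm.mul_apply]⟩
  induction hx using Subgroup.closure_induction_left with
  | one => exact ⟨fun _ => rfl, fun u v => ⟨v, rfl⟩⟩
  | mul_left s hs y _ ih => exact step s hs y ih
  | inv_mul_cancel s hs y _ ih => rw [gens_inv hs]; exact step s hs y ih

lemma grig_ext (hω : ∀ i, ω i ≠ 2) {x x' : Γ} (hx : x ∈ grig ω) (hx' : x' ∈ grig ω) (K : ℕ)
    (h : ∀ v u, v.length = K → x (v ++ u) = x' (v ++ u)) : x = x' := by
  ext1 w
  have h1 := h ((w ++ List.replicate K true).take K) ((w ++ List.replicate K true).drop K)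
    (by simp)
  rw [List.take_append_drop] at h1
  obtain ⟨v, h2⟩ := (grig_prop hω hx).2 w (List.replicate K true)
  obtain ⟨v', h3⟩ := (grig_prop hω hx').2 w (List.replicate K true)
  rw [h2, h3] at h1
  exact List.append_inj_left h1 (by rw [(grig_prop hω hx).1, (grig_prop hω hx').1])

/-- The tent function. -/
def tent (m : ℕ) (v : List Bool) (j : ℤ) : ℝ :=
  ((max 0 (2 ^ v.length * (2 * m) - |Pp v j|) : ℤ) : ℝ)

lemma mem_of_abs_le {m : ℕ} {v : List Bool} {j : ℤ} (h : |Pp v j| ≤ 2 ^ v.length * (2 * m)) :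
    j ∈ Icc (-(2 * m : ℤ)) (2 * m) := by
  obtain ⟨h1, h2⟩ := Pp_bounds v j
  obtain ⟨h3, h4⟩ := abs_le.1 h
  have h5 : (0 : ℤ) < 2 ^ v.length := by positivity
  refine mem_Icc.2 ⟨?_, le_of_mul_le_mul_left (h1.trans h4) h5⟩
  have := lt_of_mul_lt_mul_left (a := (2 : ℤ) ^ v.length) (b := -(2 * m)) (c := j + 1)
    (by linarith) h5.le
  omega

lemma abs_lt_of_tent {m : ℕ} {v : List Bool} {j : ℤ} (h : tent m v j ≠ 0) :
    |Pp v j| < 2 ^ v.length * (2 * m) := by
  by_contra hc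
  exact h (by rw [tent, max_eq_left (by linarith)]; simp)

lemma tent_lower (m : ℕ) (v : List Bool) :
    (m : ℝ) * (2 ^ v.length * m) ^ 2 ≤ ∑ j ∈ Icc (-(2 * m : ℤ)) (2 * m), tent m v j ^ 2 := by
  have h1 : Ico (0 : ℤ) m ⊆ Icc (-(2 * m : ℤ)) (2 * m) := fun j hj => by
    simp only [mem_Ico, mem_Icc] at hj ⊢; omega
  refine le_trans ?_ (sum_le_sum_of_subset_of_nonneg h1 fun _ _ _ => sq_nonneg _)
  have := card_nsmul_le_sum (Ico (0 : ℤ) m) (fun j => tent m v j ^ 2)
    (((2 : ℝ) ^ v.length * m) ^ 2) fun j hj => by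
      refine pow_le_pow_left₀ (by positivity) ?_ 2
      obtain ⟨h2, h3⟩ := mem_Ico.1 hj
      obtain ⟨h4, h5⟩ := Pp_bounds v j
      have h6 : (0 : ℤ) < 2 ^ v.length := by positivity
      have h7 : (2 : ℤ) ^ v.length * m ≤ max 0 (2 ^ v.length * (2 * m) - |Pp v j|) := by
        rw [abs_of_nonneg (le_trans (by positivity) h4)]
        refine le_max_of_le_right ?_
        nlinarith
      rw [tent]; exact_mod_cast h7
  simpa using this

lemma sum_eq_of_supp (F : ℤ → ℝ) (A B : Finset ℤ) (hA : ∀ x, F x ≠ 0 → x ∈ A)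
    (hB : ∀ x, F x ≠ 0 → x ∈ B) : ∑ x ∈ A, F x = ∑ x ∈ B, F x := by
  rw [← sum_filter_ne_zero A, ← sum_filter_ne_zero B]
  congr 1
  ext x
  simp only [mem_filter]
  exact ⟨fun h => ⟨hB x h.2, h.2⟩, fun h => ⟨hA x h.2, h.2⟩⟩

/-- The normalised tent function. -/
noncomputable def nt (m : ℕ) (v : List Bool) (j : ℤ) : ℝ :=
  tent m v j / √(∑ j ∈ Icc (-(2 * m : ℤ)) (2 * m), tent m v j ^ 2)

lemma nt_nonneg (m v j) : 0 ≤ nt m v j :=
  div_nonneg (by rw [tent]; exact_mod_cast le_max_left _ _) (Real.sqrt_nonneg _)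

lemma nt_sum {m : ℕ} (hm : 1 ≤ m) (v : List Bool) :
    ∑ j ∈ Icc (-(2 * m : ℤ)) (2 * m), nt m v j ^ 2 = 1 := by
  have h := lt_of_lt_of_le (by positivity) (tent_lower m v)
  simp only [nt, div_pow, ← sum_div, Real.sq_sqrt h.le, div_self h.ne']

lemma nt_move {m : ℕ} (hm : 1 ≤ m) {v v' : List Bool} (hv : v'.length = v.length) {τ : ℤ → ℤ}
    (hτ : Function.Involutive τ) (h : ∀ j, |Pp v' (τ j) - Pp v j| ≤ 1) :
    ∑ j ∈ Icc (-(2 * m : ℤ)) (2 * m), nt m v' (τ j) ^ 2 = 1 ∧
      1 - 3 / (2 ^ v.length * m) ^ 2 ≤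
        ∑ j ∈ Icc (-(2 * m : ℤ)) (2 * m), nt m v j * nt m v' (τ j) := by
  set I := Icc (-(2 * m : ℤ)) (2 * m) with hI
  have h1 : ∑ j ∈ I, tent m v' (τ j) ^ 2 = ∑ j ∈ I, tent m v' j ^ 2 := by
    rw [← sum_image (f := fun j => tent m v' j ^ 2) hτ.injective.injOn]
    refine sum_eq_of_supp _ _ _ (fun x hx => ?_) fun x hx => ?_
    · have h2 := abs_lt_of_tent fun h => hx (by rw [h]; simp)
      refine mem_image.2 ⟨τ x, mem_of_abs_le (v := v) ?_, hτ x⟩
      have h3 := h (τ x)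
      rw [hτ x] at h3
      have h4 := abs_sub_abs_le_abs_sub (Pp v (τ x)) (Pp v' x)
      rw [abs_sub_comm] at h3
      rw [hv] at h2; omega
    · exact mem_of_abs_le (abs_lt_of_tent fun h => hx (by rw [h]; simp)).le
  have hm' : (1 : ℝ) ≤ m := by exact_mod_cast hm
  have z1 := tent_lower m v
  have z2 := tent_lower m v'
  rw [hv] at z2
  rw [← hI] at z1 z2
  set M : ℝ := (2 ^ v.length * m) ^ 2 with hM
  have hM0 : 0 < M := by positivity
  set Z := ∑ j ∈ I, tent m v j ^ 2 with hZ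
  set Z' := ∑ j ∈ I, tent m v' j ^ 2 with hZ'
  have p1 : 0 < Z := lt_of_lt_of_le (by positivity) z1
  have p2 : 0 < Z' := lt_of_lt_of_le (by positivity) z2
  refine ⟨by simp only [nt, div_pow, ← sum_div, ← hI, ← hZ', h1, Real.sq_sqrt p2.le,
    div_self p2.ne'], ?_⟩
  simp only [nt, ← hI, ← hZ, ← hZ', div_mul_div_comm, ← sum_div]
  have h2 : ∑ j ∈ I, (tent m v j - tent m v' (τ j)) ^ 2 ≤ 5 * m := by
    have : ∀ j ∈ I, (tent m v j - tent m v' (τ j)) ^ 2 ≤ 1 := by
      intro j _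
      rw [sq_le_one_iff_abs_le_one, tent, tent, hv, ← Int.cast_sub, ← Int.cast_abs]
      have h3 := abs_le.1 ((abs_abs_sub_abs_le_abs_sub _ _).trans (h j))
      exact_mod_cast abs_le.2 ⟨by omega, by omega⟩
    refine (sum_le_card_nsmul _ _ _ this).trans ?_
    rw [hI, Int.card_Icc, nsmul_eq_mul, mul_one]
    exact_mod_cast (by omega : (2 * (m : ℤ) + 1 - -(2 * m)).toNat ≤ 5 * m)
  simp only [sub_sq, sum_add_distrib, sum_sub_distrib, mul_assoc, ← mul_sum, h1, ← hZ] at h2
  have h3 : m * M ≤ √Z * √Z' := by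
    rw [← Real.sqrt_mul p1.le]
    exact Real.le_sqrt_of_sq_le (by nlinarith [mul_pos (by linarith : (0 : ℝ) < m) hM0])
  have h4 : 2 * (√Z * √Z') ≤ Z + Z' := by
    nlinarith [sq_nonneg (√Z - √Z'), Real.sq_sqrt p1.le, Real.sq_sqrt p2.le]
  have h5 : 3 / M * (m * M) ≤ 3 / M * (√Z * √Z') := mul_le_mul_of_nonneg_left h3 (by positivity)
  rw [show 3 / M * (m * M) = 3 * m by field_simp] at h5
  rw [le_div_iff₀ (by positivity)]
  nlinarith

end Pool.Agent.P.MP_0b0f5a_al
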