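import Pool.Agent.P.MP_0b0f5a_al.Upper

/-!
The construction of Følner sets.
-/

namespace Pool.Agent.P.MP_0b0f5a_al

open Equiv Finset
open scoped Pointwise

variable {ω : ℕ → Fin 3}

lemma upper_core (hω : ∀ i, ω i ≠ 2) {K N m n : ℕ} (hK : 1 ≤ K) {δ : Γ}
    (hD : genS 0 (fun i => ω (i + K)) = En N δ) (hm : 2 * m < 2 ^ N) (hn0 : 0 < n)
    (hn : 40 * n < 2 ^ (K / 2) * m) :
    ∃ E : Finset Γ, (E : Set Γ) ⊆ grig ω ∧ (∀ s ∈ gens ω, n * (2 * bd E s) < E.card) ∧
      E.card ≤ 2 ^ (2 ^ K * (K + 4 * m + 2)) := by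
  classical
  have hm1 : 1 ≤ m := Nat.pos_of_ne_zero (by rintro rfl; simp at hn)
  have hδ : δ * δ = 1 := En_inj N (by rw [map_mul, ← hD, genS_sq, map_one])
  have hc : Commute genB (En N δ) := by
    rw [← hD, ← genS_two fun i => hω (i + K)]; exact genS_comm _
  obtain ⟨Λ, l1, l2, l3⟩ := exists_closed (Icc (-(m : ℤ)) m) (fun i => iota N i δ)
    (fun i _ => by rw [← map_mul, hδ, map_one]) (fun i hi j hj => by
      by_cases h : i = j
      · rw [h]
      · have h1 : (2 * m : ℤ) < 2 ^ N := by exact_mod_cast hm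
        obtain ⟨h2, h3⟩ := mem_Icc.1 hi
        obtain ⟨h4, h5⟩ := mem_Icc.1 hj
        have := not_dvd_of_lt (n := N) (i := i + m) (j := j + m) (by omega) (by omega) (by omega)
          (by omega) (by omega)
        rw [add_sub_add_right_eq_sub] at this
        exact (iota_disj this _ _).commute)
  rw [Int.card_Icc, show ((m : ℤ) + 1 - -m).toNat = 2 * m + 1 by omega] at l2
  set g : Fin 4 → Γ := ![genA, genS 2 ω, genS 1 ω, genS 0 ω] with hg
  have g1 : ∀ s, g s ∈ gens ω := fun s => by fin_cases s <;> simp [hg, gens]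
  have g2 : ∀ x ∈ gens ω, ∃ s, g s = x := by
    rintro x (rfl | rfl | rfl | rfl)
    exacts [⟨0, rfl⟩, ⟨1, rfl⟩, ⟨2, rfl⟩, ⟨3, rfl⟩]
  have key : ∀ s (v : List.Vector Bool K), ∃ κ τ, Good (En N δ) κ τ ∧
      (∀ u, g s (v.1 ++ u) = g s v.1 ++ κ u) ∧ ∀ j, |Pp (g s v.1) (τ j) - Pp v.1 j| ≤ 1 := by
    intro s v
    have := local_gen hω (g1 s) v.1
    rwa [v.2, hD] at this
  choose κ τ k1 k2 k3 using key
  have g3 : ∀ s, g s * g s = 1 := fun s => by
    have := mul_inv_cancel (g s)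
    rwa [gens_inv (g1 s)] at this
  obtain ⟨a, ha⟩ : ∃ a : Fin 4 → Perm (List.Vector Bool K), ∀ s v, (a s v).1 = g s v.1 :=
    ⟨fun s => Function.Involutive.toPerm (fun v => ⟨g s v.1, (length_gen (g1 s) _).trans v.2⟩)
      fun v => Subtype.ext (by
        change (g s * g s) v.1 = v.1
        rw [g3]; rfl), fun _ _ => rfl⟩
  set I0 := Icc (-(2 * m : ℤ)) (2 * m) with hI0
  set P := Fintype.piFinset fun _ : List.Vector Bool K => I0 with hP
  set yy : Perm (List.Vector Bool K) × (List.Vector Bool K → ℤ) → (List.Vector Bool K → Γ) →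
      List.Vector Bool K → List Bool → List Bool :=
    fun ξ l x u => (ξ.1 x).1 ++ hh (ξ.2 x) (l x u) with hyy
  set L := Fintype.piFinset fun _ : List.Vector Bool K => Λ with hL
  have hcard : Fintype.card (List.Vector Bool K) = 2 ^ K := by simp [card_vector]
  have hs0 : (0 : ℝ) < 2 ^ (K / 2) * m := by positivity
  obtain ⟨E, e1, e2, e3⟩ := folner_of_weight (grig ω) g (fun s => Subgroup.subset_closure (g1 s))
    (1 / (2 * n)) (univ ×ˢ P) (fun ξ => ∏ x, nt m (ξ.1 x).1 (ξ.2 x) ^ 2)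
    (fun ξ => prod_nonneg fun _ _ => sq_nonneg _)
    (fun ξ hξ => by
      by_contra h
      refine hξ (mem_product.2 ⟨mem_univ _, Fintype.mem_piFinset.2 fun x => ?_⟩)
      refine mem_of_abs_le (abs_lt_of_tent (v := (ξ.1 x).1) fun h' => ?_).le
      exact prod_ne_zero_iff.1 h x (mem_univ _) (by simp [nt, h']))
    (fun s ξ => (a s * ξ.1, fun x => τ s (ξ.1 x) (ξ.2 x)))
    (fun s => by
      rintro ⟨p, j⟩ ⟨p', j'⟩ h
      obtain ⟨h1, h2⟩ := Prod.mk.inj h
      obtain rfl := mul_left_cancel h1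
      exact Prod.ext rfl (funext fun x => (k1 s (p x)).1.injective (congrFun h2 x)))
    (fun ξ => yy ξ '' L)
    (fun s ξ hξ => by
      have h1 : ∀ x, ∃ l : Γ, l * l = 1 ∧ (∀ y ∈ Λ, l * y ∈ Λ) ∧
          κ s (ξ.1 x) * hh (ξ.2 x) = hh (τ s (ξ.1 x) (ξ.2 x)) * l := by
        intro x
        rcases (k1 s (ξ.1 x)).2 (ξ.2 x) with h | h
        · exact ⟨1, one_mul _, by simp, by simpa using h⟩
        · have h2 := mem_Icc.1 (Fintype.mem_piFinset.1 (mem_product.1 hξ).2 x)
          rw [lamp_eq hc] at h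
          exact ⟨_, by rw [← map_mul, hδ, map_one], l3 _ (mem_Icc.2 ⟨by omega, by omega⟩), h⟩
      choose l h2 h3 h4 using h1
      have h5 : ∀ y, g s • yy ξ y = yy (a s * ξ.1, fun x => τ s (ξ.1 x) (ξ.2 x)) (l * y) := by
        intro y
        funext x u
        change g s ((ξ.1 x).1 ++ hh (ξ.2 x) (y x u)) =
          (a s (ξ.1 x)).1 ++ hh (τ s (ξ.1 x) (ξ.2 x)) (l x (y x u))
        rw [k2, ha, ← Perm.mul_apply (κ _ _), h4, Perm.mul_apply]
      have h6 : ∀ y ∈ L, l * y ∈ L := fun y hy =>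
        Fintype.mem_piFinset.2 fun x => h3 x _ (Fintype.mem_piFinset.1 hy x)
      ext z
      constructor
      · rintro ⟨y, hy, rfl⟩
        refine ⟨_, ⟨l * y, h6 y hy, rfl⟩, ?_⟩
        change g s • _ = _
        rw [h5, ← mul_assoc, show l * l = 1 from funext h2, one_mul]
      · rintro ⟨_, ⟨y, hy, rfl⟩, rfl⟩
        exact ⟨l * y, h6 y hy, (h5 y).symm⟩)
    (B := L.card)
    (fun ξ _ => by
      set St : Set Γ := {x | x ∈ grig ω ∧ x • (yy ξ '' L) = yy ξ '' L} with hSt
      have h1 : Set.MapsTo (fun x : Γ => x • yy ξ 1) St (L.image (yy ξ) : Set _) := by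
        intro x hx
        rw [coe_image, ← hx.2]
        exact Set.smul_mem_smul_set ⟨1, Fintype.mem_piFinset.2 fun _ => l1, rfl⟩
      have h2 : Set.InjOn (fun x : Γ => x • yy ξ 1) St := by
        intro x hx x' hx' h
        refine grig_ext hω hx.1 hx'.1 K fun v u hv => ?_
        have := congrFun (congrFun h (ξ.1.symm ⟨v, hv⟩)) ((hh (ξ.2 (ξ.1.symm ⟨v, hv⟩))).symm u)
        simpa [hyy] using this
      have h3 : St.Finite := Set.Finite.of_injOn h1 h2 (finite_toSet _)
      refine ⟨h3.toFinset, le_trans (card_le_card_of_injOn (fun x : Γ => x • yy ξ 1) ?_ ?_)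
        (card_image_le (f := yy ξ)),
        fun x => h3.mem_toFinset⟩
      · rw [h3.coe_toFinset]; exact h1
      · rw [h3.coe_toFinset]; exact h2)
    (by
      have h1 : ∀ p : Perm (List.Vector Bool K), ∑ j ∈ P, ∏ x, nt m (p x).1 (j x) ^ 2 = 1 := by
        intro p
        rw [← prod_univ_sum (fun _ => I0) fun x j => nt m (p x).1 j ^ 2]
        exact prod_eq_one fun x _ => nt_sum hm1 _
      have h2 : ∀ s (p : Perm (List.Vector Bool K)), ∑ j ∈ P, max (∏ x, nt m (p x).1 (j x) ^ 2 -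
          ∏ x, nt m ((a s * p) x).1 (τ s (p x) (j x)) ^ 2) 0 ≤ 5 / (2 ^ (K / 2) * m) := by
        intro s p
        have h3 := fun x => nt_move hm1 (length_gen (g1 s) (p x).1) (k1 s (p x)).1 (k3 s (p x))
        have hm' : (1 : ℝ) ≤ m := by exact_mod_cast hm1
        have h4 : (2 : ℝ) ≤ 2 ^ K := le_self_pow₀ one_le_two (by omega)
        simp only [Perm.mul_apply, ha]
        refine hellinger I0 (fun x j => nt m (p x).1 j) (fun x j => nt m (g s (p x).1) (τ s (p x) j))
          (fun _ _ => nt_nonneg _ _ _) (fun _ _ => nt_nonneg _ _ _) (fun x => nt_sum hm1 _)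
          (fun x => (h3 x).1) (η := 3 / (2 ^ K * m) ^ 2) ?_ (by positivity)
          (fun x => by have := (h3 x).2; rwa [(p x).2] at this) ?_
        · rw [div_le_one (by positivity)]
          have : (2 : ℝ) ≤ 2 ^ K * m := by nlinarith
          nlinarith
        · have h5 : ((2 : ℝ) ^ (K / 2)) ^ 2 ≤ 2 ^ K := by
            rw [← pow_mul]; exact pow_le_pow_right₀ one_le_two (by omega)
          rw [hcard, div_pow, ← mul_div_assoc, div_le_div_iff₀ (by positivity) (by positivity),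
            mul_pow, mul_pow]
          push_cast
          have h6 : (0 : ℝ) < 2 ^ K * m ^ 2 := by positivity
          nlinarith [mul_le_mul_of_nonneg_left h5 h6.le]
      simp only [sum_product, h1]
      refine (sum_le_sum fun s _ => sum_le_sum fun p _ => h2 s p).trans_lt ?_
      have h3 : (0 : ℝ) < Fintype.card (Perm (List.Vector Bool K)) := by
        exact_mod_cast Fintype.card_pos
      have h4 : (40 * n : ℝ) < 2 ^ (K / 2) * m := by exact_mod_cast hn
      have h5 : (0 : ℝ) < n := by exact_mod_cast hn0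
      simp only [sum_const, card_univ, Fintype.card_fin, nsmul_eq_mul, mul_one]
      rw [mul_left_comm, mul_comm (1 / _ : ℝ)]
      refine mul_lt_mul_of_pos_left ?_ h3
      rw [← mul_div_assoc, div_lt_div_iff₀ hs0 (by positivity)]
      push_cast; linarith)
  refine ⟨E, e1, fun x hx => ?_, e3.trans ?_⟩
  · obtain ⟨s, rfl⟩ := g2 x hx
    have h1 := (single_le_sum (f := fun s => (bd E (g s) : ℝ)) (fun _ _ => Nat.cast_nonneg _)
      (mem_univ s)).trans_lt e2
    have h5 : (0 : ℝ) < n := by exact_mod_cast hn0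
    rw [one_div, inv_mul_eq_div, lt_div_iff₀ (by positivity)] at h1
    have : (n : ℝ) * (2 * bd E (g s)) < E.card := by linarith
    exact_mod_cast this
  · rw [card_product, card_univ, Fintype.card_perm, hP, hL, Fintype.card_piFinset,
      Fintype.card_piFinset, prod_const, prod_const, card_univ, hcard, hI0, Int.card_Icc,
      show (2 * (m : ℤ) + 1 - -(2 * m)).toNat = 4 * m + 1 by omega]
    have h1 : (2 ^ K).factorial ≤ (2 ^ K) ^ 2 ^ K := Nat.factorial_le_pow _
    have h2 : 4 * m + 1 ≤ 2 ^ (2 * m + 1) := by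
      have := Nat.lt_two_pow_self (n := 2 * m)
      rw [pow_succ]; omega
    calc _ ≤ (2 ^ K) ^ 2 ^ K * (2 ^ (2 * m + 1)) ^ 2 ^ K * (2 ^ (2 * m + 1)) ^ 2 ^ K := by gcongr
      _ = _ := by rw [← mul_pow, ← mul_pow, ← pow_add, ← pow_add, ← pow_mul]; congr 1; ring

end Pool.Agent.P.MP_0b0f5a_al
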