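import Pool.Agent.P.MP_0b0f5a_al.Tree

/-!
Word lengths. Words that are trivial in both dihedral quotients lift to rigid stabilisers.
-/

namespace Pool.Agent.P.MP_0b0f5a_al

open Equiv

/-- `g` is a product of at most `c` generators. -/
def Len (ω : ℕ → Fin 3) (c : ℕ) (g : Γ) : Prop :=
  ∃ l : List Γ, (∀ x ∈ l, x ∈ gens ω) ∧ l.length ≤ c ∧ l.prod = g

variable {ω : ℕ → Fin 3}

lemma gens_inv {s : Γ} (h : s ∈ gens ω) : s⁻¹ = s := by
  rcases h with rfl | rfl | rfl | rfl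
  exacts [genA_inv, genS_inv _ _, genS_inv _ _, genS_inv _ _]

lemma Len.one (c : ℕ) : Len ω c 1 := ⟨[], by simp, by simp, rfl⟩

lemma Len.gen {s : Γ} (h : s ∈ gens ω) : Len ω 1 s := ⟨[s], by simpa, by simp, by simp⟩

lemma Len.mono {c c' g} (h : Len ω c g) (hc : c ≤ c') : Len ω c' g :=
  let ⟨l, h1, h2, h3⟩ := h; ⟨l, h1, h2.trans hc, h3⟩

lemma Len.mul {c c' g g'} (h : Len ω c g) (h' : Len ω c' g') : Len ω (c + c') (g * g') := by
  obtain ⟨l, h1, h2, rfl⟩ := h
  obtain ⟨l', h1', h2', rfl⟩ := h'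
  refine ⟨l ++ l', fun x hx => ?_, by simp; omega, by simp⟩
  rcases List.mem_append.1 hx with h | h
  exacts [h1 x h, h1' x h]

lemma Len.inv {c g} (h : Len ω c g) : Len ω c g⁻¹ := by
  obtain ⟨l, h1, h2, rfl⟩ := h
  refine ⟨l.reverse, fun x hx => h1 x (List.mem_reverse.1 hx), by simpa, ?_⟩
  rw [List.prod_inv_reverse, List.map_congr_left fun x hx => gens_inv (h1 x hx)]
  simp

lemma Len.pow {c g} (h : Len ω c g) (n : ℕ) : Len ω (n * c) (g ^ n) := by
  induction n with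
  | zero => simpa using Len.one 0
  | succ n ih => rw [pow_succ, add_mul, one_mul]; exact ih.mul h

lemma Len.zpow {c g} (h : Len ω c g) (i : ℤ) : Len ω (i.natAbs * c) (g ^ i) := by
  rcases Int.eq_nat_or_neg i with ⟨n, rfl | rfl⟩
  · simpa using h.pow n
  · simpa using (h.pow n).inv

lemma Len.conj {c c' g t} (h : Len ω c g) (h' : Len ω c' t) :
    Len ω (c + 2 * c') (t * g * t⁻¹) := ((h'.mul h).mul h'.inv).mono (by omega)

lemma len_rho (hω : ∀ i, ω i ≠ 2) : Len ω 2 rho := by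
  rw [rho, ← genS_two hω]
  exact (Len.gen (by simp [gens])).mul (Len.gen (by simp [gens]))

lemma key_induction {Y M : Type} [Group M] (g : Y → M) (key : Y → ℕ) (N : ℕ)
    (hN : ∀ y, key y < N) (Q : ℕ → (Y → M) → Prop) (h0 : Q 0 1)
    (hs : ∀ n < N, ∀ p, Q n p → Q (n + 1) (p * fun y => if key y = n then g y else 1)) :
    Q N g := by
  have key1 : ∀ n ≤ N, Q n fun y => if key y < n then g y else 1 := by
    intro n hn
    induction n with
    | zero => simp only [Nat.not_lt_zero, if_false]; exact h0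
    | succ n ih =>
      have := hs n (by omega) _ (ih (by omega))
      convert this using 1
      funext y
      rcases lt_trichotomy (key y) n with h | h | h
      · simp [h, h.ne, Nat.lt_succ_of_lt h]
      · simp [h]
      · simp [h.ne', h.le.not_gt, Nat.not_lt.2 (Nat.succ_le_of_lt h)]
  simpa [hN] using key1 N le_rfl

/-- Evaluation of words in three letters. -/
def ev (α β γ : Γ) : FreeMonoid (Fin 3) →* Γ := FreeMonoid.lift ![α, β, γ]

/-- The substitution that lifts words to the vertex 1. -/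
def phi : FreeMonoid (Fin 3) →* FreeMonoid (Fin 3) :=
  FreeMonoid.lift ![.of 0 * .of 1 * .of 0, .of 1, .of 2]

lemma ev_phi (α β γ : Γ) (w) : ev α β γ (phi w) = ev (α * β * α) β γ w := by
  have : (ev α β γ).comp phi = ev (α * β * α) β γ := by
    refine FreeMonoid.hom_eq fun i => ?_
    fin_cases i <;> simp [ev, phi]
  exact DFunLike.congr_fun this w

lemma length_phi (w) : (phi w).length ≤ 3 * w.length := by
  induction w using FreeMonoid.inductionOn' with
  | one => simp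
  | of_mul i w ih =>
    rw [map_mul, FreeMonoid.length_mul, FreeMonoid.length_mul, FreeMonoid.length_of]
    have : (phi (.of i)).length ≤ 3 := by fin_cases i <;> simp [phi]
    omega

lemma len_ev (hω : ∀ i, ω i ≠ 2) (k : Fin 3) (w) :
    Len ω w.length (ev genA genB (genS k ω) w) := by
  induction w using FreeMonoid.inductionOn' with
  | one => simpa using Len.one 0
  | of_mul i w ih =>
    rw [map_mul, FreeMonoid.length_mul, FreeMonoid.length_of]
    refine (Len.gen ?_).mul ih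
    rw [← genS_two hω]
    fin_cases i <;> fin_cases k <;> simp [ev, gens]

/-- The image of `w` in both dihedral quotients is the translation by `x`. -/
def Tr (w : FreeMonoid (Fin 3)) (x : ℤ) : Prop :=
  ∀ α β : Γ, α * α = 1 → β * β = 1 → ev α β 1 w = (α * β) ^ x ∧ ev α β β w = (α * β) ^ x

lemma Tr.phi {w} (h : Tr w 0) : Tr (phi w) 0 := by
  intro α β ha hb
  rw [ev_phi, ev_phi]
  refine h _ β ?_ hb
  rw [show α * β * α * (α * β * α) = α * (β * (α * α) * β) * α by simp only [mul_assoc], ha,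
    mul_one, hb, mul_one, ha]

lemma ev_phi_eq (k : Fin 3) {w} (h : Tr w 0) : ev genA genB (genS k ω) (phi w) =
    pair (1, ev genA genB (genS k fun i => ω (i + 1)) w) := by
  have h1 : ev (genA * genB * genA) genB (genS k ω) = pair.comp
      ((ev genB genA (if ω 0 = k then 1 else genA)).prod
        (ev genA genB (genS k fun i => ω (i + 1)))) := by
    refine FreeMonoid.hom_eq fun i => ?_
    fin_cases i
    · simp only [ev, Fin.zero_eta, FreeMonoid.lift_eval_of, Matrix.cons_val_zero,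
        MonoidHom.comp_apply, MonoidHom.prod_apply]
      rw [← genA_conj, ← genB_eq]
    · simpa [ev] using genB_eq
    · simpa [ev] using genS_eq k ω
  rw [ev_phi, h1, MonoidHom.comp_apply, MonoidHom.prod_apply]
  obtain ⟨h2, h3⟩ := h genB genA genB_sq genA_sq
  split_ifs
  · rw [h2, zpow_zero]
  · rw [h3, zpow_zero]

lemma len_En (k : Fin 3) (h : ℕ) : ∀ (ω : ℕ → Fin 3), ∀ w, Tr w 0 → ∃ w', Tr w' 0 ∧
    w'.length ≤ 3 ^ h * w.length ∧
    ev genA genB (genS k ω) w' = En h (ev genA genB (genS k fun i => ω (i + h)) w) := by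
  induction h with
  | zero => intro ω w hw; exact ⟨w, hw, by simp, rfl⟩
  | succ h ih =>
    intro ω w hw
    obtain ⟨w', h1, h2, h3⟩ := ih (fun i => ω (i + 1)) w hw
    refine ⟨phi w', h1.phi, (length_phi w').trans (by rw [pow_succ]; nlinarith), ?_⟩
    rw [ev_phi_eq k h1, h3, En_succ]; rfl

/-- `g` is the value of a word of length at most `c` and translation `x`. -/
def RW (D : Γ) (c : ℕ) (x : ℤ) (g : Γ) : Prop :=
  ∃ w, w.length ≤ c ∧ ev genA genB D w = g ∧ Tr w x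

lemma RW.one (D : Γ) (c) : RW D c 0 1 := ⟨1, by simp, by simp, fun _ _ _ _ => by simp⟩

lemma RW.mul {D c c' x x' g g'} (h : RW D c x g) (h' : RW D c' x' g') :
    RW D (c + c') (x + x') (g * g') := by
  obtain ⟨w, h1, rfl, h3⟩ := h
  obtain ⟨w', h1', rfl, h3'⟩ := h'
  refine ⟨w * w', by rw [FreeMonoid.length_mul]; omega, map_mul _ _ _, fun α β ha hb => ?_⟩
  rw [map_mul, map_mul, (h3 α β ha hb).1, (h3 α β ha hb).2, (h3' α β ha hb).1,
    (h3' α β ha hb).2, zpow_add]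
  exact ⟨rfl, rfl⟩

lemma RW.pow {D c x g} (h : RW D c x g) (n : ℕ) : RW D (n * c) (n * x) (g ^ n) := by
  induction n with
  | zero => simpa using RW.one D 0
  | succ n ih =>
    rw [pow_succ, add_mul, one_mul, Nat.cast_succ, add_mul, one_mul]; exact ih.mul h

lemma rw_rho (D : Γ) : RW D 2 1 rho :=
  ⟨.of 0 * .of 1, by simp, by simp [ev, rho], fun _ _ _ _ => by simp [ev]⟩

lemma rw_rho_inv (D : Γ) : RW D 2 (-1) rho⁻¹ := by
  refine ⟨.of 1 * .of 0, by simp, by simp [ev, rho_inv], fun α β ha hb => ?_⟩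
  simp [ev, inv_eq_of_mul_eq_one_right ha, inv_eq_of_mul_eq_one_right hb]

lemma rw_pattern (D : Γ) :
    RW D 12 0 (D * (rho * D * rho⁻¹) * (rho ^ 2 * D * (rho ^ 2)⁻¹) * (rho * D * rho⁻¹)) := by
  refine ⟨.of 2 * (.of 0 * .of 1) * .of 2 * (.of 0 * .of 1) * .of 2 * (.of 1 * .of 0) * .of 2 *
    (.of 1 * .of 0), by simp, ?_, fun α β ha hb => ?_⟩
  · have e1 : ev genA genB D (.of 0 * .of 1) = rho := by simp [ev, rho]
    have e2 : ev genA genB D (.of 1 * .of 0) = rho⁻¹ := by simp [ev, rho_inv]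
    have e3 : ev genA genB D (.of 2) = D := by simp [ev]
    simp only [map_mul (ev genA genB D) _ (.of 2), map_mul (ev genA genB D) _ (.of 0 * .of 1),
      map_mul (ev genA genB D) _ (.of 1 * .of 0), e1, e2, e3]
    group
  · have h1 : ∀ x, α * (α * x) = x := fun x => by rw [← mul_assoc, ha, one_mul]
    have h2 : ∀ x, β * (β * x) = x := fun x => by rw [← mul_assoc, hb, one_mul]
    simp [ev, mul_assoc, h1, h2, ha, hb]

/-- Two copies of `g`, at the positions `4 s` and `4 s + 2`. -/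
def dd (n : ℕ) (s : ℤ) (g : Γ) : Γ := iota n (4 * s) g * iota n (4 * s + 2) g

lemma dd_conj (n : ℕ) (s t : ℤ) (g : Γ) :
    rho ^ (4 * t) * dd n s g * (rho ^ (4 * t))⁻¹ = dd n (t + s) g := by
  rw [dd, dd, mul_add, add_assoc, ← iota_conj n (4 * s) (4 * t),
    ← iota_conj n (4 * s + 2) (4 * t)]
  simp only [mul_assoc, inv_mul_cancel_left]

lemma not_dvd_of_lt {n : ℕ} {i j : ℤ} (h0 : 0 ≤ i) (h1 : i < 2 ^ n) (h2 : 0 ≤ j) (h3 : j < 2 ^ n)
    (h : i ≠ j) : ¬ (2 : ℤ) ^ n ∣ i - j := fun hd =>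
  h (sub_eq_zero.1 (Int.eq_zero_of_abs_lt_dvd hd (abs_lt.2 ⟨by linarith, by linarith⟩)))

lemma four_le {n : ℕ} (h : 2 ≤ n) : (4 : ℤ) ≤ 2 ^ n :=
  calc (4 : ℤ) = 2 ^ 2 := by norm_num
    _ ≤ 2 ^ n := pow_le_pow_right₀ (by norm_num) h

lemma pattern_eq {n : ℕ} (hn : 2 ≤ n) {δ : Γ} (hδ : δ * δ = 1) :
    En n δ * (rho * En n δ * rho⁻¹) * (rho ^ 2 * En n δ * (rho ^ 2)⁻¹) * (rho * En n δ * rho⁻¹) =
      dd n 0 δ := by
  have h4 := four_le hn
  have h1 : rho * En n δ * rho⁻¹ = iota n 1 δ := by simp [iota_apply]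
  have h2 : rho ^ 2 * En n δ * (rho ^ 2)⁻¹ = iota n 2 δ := by simp [iota_apply, zpow_ofNat]
  have h3 := (iota_disj (not_dvd_of_lt (n := n) (i := 1) (j := 2) (by norm_num) (by linarith)
    (by norm_num) (by linarith) (by norm_num)) δ δ).commute
  rw [h1, h2, mul_assoc (En n δ), h3.eq, mul_assoc, mul_assoc, ← map_mul, hδ, map_one, mul_one, dd]
  simp [iota_zero]

/-- Doubling the positions of a system. -/
def dup (Y : Type) : (Y → Γ) →* (Y × Bool → Γ) where
  toFun g z := g z.1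
  map_one' := rfl
  map_mul' _ _ := rfl

lemma Sys.dup {Y : Type} {t : Γ} {S : (Y × Bool → Γ) →* Γ} (h : Sys t S) :
    Sys t (S.comp (dup Y)) :=
  ⟨fun _ => h.conj _, fun _ _ hg => h.disj _ _ fun z => hg z.1,
    h.inj.comp fun _ _ hg => funext fun y => congrFun hg (y, false)⟩

lemma dup_single {Y : Type} [Fintype Y] [DecidableEq Y] (n : ℕ) (x : Y × Bool → ℤ) (h : Sep n x)
    (y : Y) (g : Γ) : (glue n x h).comp (dup Y) (Pi.mulSingle y g) =
      iota n (x (y, false)) g * iota n (x (y, true)) g := by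
  rw [← glue_single n x h, ← glue_single n x h, ← map_mul, MonoidHom.comp_apply]
  congr 1
  funext ⟨y', b⟩
  by_cases hy : y' = y
  · subst hy; cases b <;> simp [dup]
  · simp [dup, hy]

lemma sep_of {Z : Type} {n : ℕ} {x : Z → ℤ} (h0 : ∀ z, 0 ≤ x z) (h1 : ∀ z, x z < 2 ^ n)
    (h : Function.Injective x) : Sep n x := fun z z' hd => by
  by_contra hz
  exact not_dvd_of_lt (h0 z) (h1 z) (h0 z') (h1 z') (fun e => hz (h e)) hd

/-- The positions of the first system. -/
def pos1 (h L : ℕ) (z : (Fin (2 ^ h) × Fin (2 ^ L)) × Bool) : ℤ :=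
  z.1.1 + 2 ^ h * (4 * z.1.2 + if z.2 then 2 else 0)

lemma sep1 (h L : ℕ) : Sep (h + (L + 2)) (pos1 h L) := by
  have hb : ∀ b : Bool, (0 : ℤ) ≤ (if b then 2 else 0) ∧ (if b then 2 else 0 : ℤ) ≤ 2 := by
    rintro (_ | _) <;> simp
  refine sep_of (fun z => ?_) (fun z => ?_) ?_
  · have := (hb z.2).1
    unfold pos1; positivity
  · have h1 : (z.1.1 : ℤ) < 2 ^ h := by exact_mod_cast z.1.1.2
    have h2 : (z.1.2 : ℤ) + 1 ≤ 2 ^ L := by exact_mod_cast z.1.2.2
    have h3 := (hb z.2).2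
    have h4 : (0 : ℤ) < 2 ^ h := by positivity
    rw [pos1, pow_add, pow_add]; nlinarith
  · rintro ⟨⟨u, i⟩, b⟩ ⟨⟨u', i'⟩, b'⟩ e
    simp only [pos1] at e
    have h1 : (u : ℤ) < 2 ^ h := by exact_mod_cast u.2
    have h1' : (u' : ℤ) < 2 ^ h := by exact_mod_cast u'.2
    have h2 : (u : ℤ) = u' := by
      by_contra hne
      exact not_dvd_of_lt (by positivity) h1 (by positivity) h1' hne
        ⟨(4 * i' + if b' then 2 else 0) - (4 * i + if b then 2 else 0), by linarith⟩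
    rw [h2, add_right_inj, mul_right_inj' (by positivity)] at e
    have h3 : u = u' := Fin.ext (by exact_mod_cast h2)
    have h4 : (i : ℤ) = i' ∧ b = b' := by cases b <;> cases b' <;> simp at e ⊢ <;> omega
    rw [h3, h4.2, Fin.ext (by exact_mod_cast h4.1 : (i : ℕ) = i')]

/-- The first system. -/
def S1 (h L : ℕ) : (Fin (2 ^ h) × Fin (2 ^ L) → Γ) →* Γ :=
  (glue _ _ (sep1 h L)).comp (dup _)

lemma S1_sys (h L : ℕ) : Sys (rho ^ 2 ^ (h + (L + 2))) (S1 h L) := (glue_sys _ _ _).dup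

lemma S1_single (h L : ℕ) (y g) :
    S1 h L (Pi.mulSingle y g) = iota h y.1 (dd (L + 2) y.2 g) := by
  rw [S1, dup_single, dd, map_mul, iota_iota, iota_iota]; simp [pos1]

/-- Independent toggles at all blocks are cheap. -/
lemma base_cost (hω : ∀ i, ω i ≠ 2) (h L : ℕ) {δ : Γ} (hδ : δ * δ = 1) {k : Fin 3}
    (hD : genS k (fun i => ω (i + h)) = En (L + 2) δ) (g : Fin (2 ^ h) × Fin (2 ^ L) → Γ)
    (hg : ∀ y, g y = 1 ∨ g y = δ) : Len ω (2 ^ h * (3 ^ h * (28 * 2 ^ L) + 4 * 2 ^ h)) (S1 h L g) := by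
  refine key_induction g (fun y => y.1) _ (fun y => y.1.2)
    (fun n p => Len ω (n * (3 ^ h * (28 * 2 ^ L) + 4 * 2 ^ h)) (S1 h L p))
    (by simpa using Len.one 0) fun u hu p hp => ?_
  rw [map_mul, add_mul, one_mul]
  refine hp.mul ?_
  obtain ⟨g', h1, h2⟩ := key_induction (fun y => if (y.1 : ℕ) = u then g y else 1)
    (fun y => y.2) _ (fun y => y.2.2)
    (fun n p => ∃ g', S1 h L p = iota h u g' ∧
      RW (En (L + 2) δ) (n * 20) (n * 4) (g' * (rho ^ 4) ^ n))
    ⟨1, by simp, by simpa using RW.one _ 0⟩ (by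
      rintro n hn p ⟨g', h1, h2⟩
      have e : (fun y : Fin (2 ^ h) × Fin (2 ^ L) => if (y.2 : ℕ) = n then
          (if (y.1 : ℕ) = u then g y else 1) else 1) =
          Pi.mulSingle (⟨u, hu⟩, ⟨n, hn⟩) (g (⟨u, hu⟩, ⟨n, hn⟩)) := by
        funext ⟨a, b⟩
        by_cases hy : (a, b) = (⟨u, hu⟩, ⟨n, hn⟩)
        · rw [hy]; simp
        · rw [Pi.mulSingle_eq_of_ne hy]
          split_ifs with h3 h4
          · exact absurd (Prod.ext (Fin.ext h4) (Fin.ext h3)) hy
          all_goals rfl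
      refine ⟨_, by rw [map_mul, h1, e, S1_single, ← map_mul], ?_⟩
      have h3 : RW (En (L + 2) δ) 12 0 (dd (L + 2) 0 (g (⟨u, hu⟩, ⟨n, hn⟩))) := by
        rcases hg (⟨u, hu⟩, ⟨n, hn⟩) with h4 | h4 <;> rw [h4]
        · simpa [dd] using RW.one _ 12
        · rw [← pattern_eq (by omega) hδ]; exact rw_pattern _
      have h4 := (h2.mul h3).mul ((rw_rho _).pow 4)
      have h5 := dd_conj (L + 2) 0 n (g (⟨u, hu⟩, ⟨n, hn⟩))
      rw [add_zero, zpow_mul, zpow_natCast, zpow_ofNat] at h5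
      convert h4 using 1
      · ring
      · push_cast; ring
      · simp only [← h5, pow_succ (rho ^ 4)]; group)
  have h3 := h2.mul (((rw_rho_inv _).pow 4).pow (2 ^ L))
  rw [inv_pow, inv_pow, mul_inv_cancel_right] at h3
  obtain ⟨w, h4, h5, h6⟩ := h3
  rw [show ((2 ^ L : ℕ) : ℤ) * 4 + ((2 ^ L : ℕ) : ℤ) * (((4 : ℕ) : ℤ) * -1) = 0 by
    push_cast; ring] at h6
  obtain ⟨w', -, h7, h8⟩ := len_En k h ω w h6
  rw [h1, iota_apply, ← h5, ← hD, ← h8]
  refine ((len_ev hω k w').conj ((len_rho hω).zpow u)).mono ?_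
  have h9 : 3 ^ h * w.length ≤ 3 ^ h * (28 * 2 ^ L) := Nat.mul_le_mul_left _ (by omega)
  simp only [Int.natAbs_natCast]
  omega

end Pool.Agent.P.MP_0b0f5a_al
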